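import Pool.Agent.R876.SV.RE

namespace Pool.Agent.R876.SV

open Filter Topology Real SMaux

namespace BWaux

theorem prop_of_wronskian {H K : ℂ → ℂ} (hH : Differentiable ℂ H) (hK : Differentiable ℂ K)
    (hW : ∀ z, deriv H z * K z = H z * deriv K z) (z0 : ℂ) (h0 : K z0 ≠ 0) :
    ∃ lam : ℂ, ∀ z, H z = lam * K z := by
  refine ⟨H z0 / K z0, ?_⟩
  obtain ⟨ε, hε, hb⟩ := Metric.eventually_nhds_iff_ball.1 (hK.continuous.continuousAt.eventually_ne h0)
  have hd : ∀ z ∈ Metric.ball z0 ε, HasDerivAt (fun z => H z / K z) 0 z := by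
    intro z hz
    have h1 := (hH z).hasDerivAt.div (hK z).hasDerivAt (hb z hz)
    refine h1.congr_deriv ?_
    rw [hW z, sub_self, zero_div]
  have hc : ∀ z ∈ Metric.ball z0 ε, H z / K z = H z0 / K z0 := by
    intro z hz
    exact Metric.isOpen_ball.is_const_of_deriv_eq_zero (f := fun z => H z / K z)
      (convex_ball z0 ε).isPreconnected
      (fun w hw => (hd w hw).differentiableAt.differentiableWithinAt)
      (fun w hw => (hd w hw).deriv) hz (Metric.mem_ball_self hε)
  have hev : H =ᶠ[𝓝 z0] fun z => H z0 / K z0 * K z := by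
    filter_upwards [Metric.ball_mem_nhds z0 hε] with z hz
    rw [← hc z hz, div_mul_cancel₀ _ (hb z hz)]
  have hHa : AnalyticOnNhd ℂ H Set.univ := fun z _ => hH.analyticAt z
  have hKa : AnalyticOnNhd ℂ (fun z => H z0 / K z0 * K z) Set.univ := fun z _ =>
    (hK.const_mul _).analyticAt z
  have := hHa.eq_of_eventuallyEq hKa hev
  intro z
  exact congrFun this z

theorem mLog_exp_bound (hJE : S_JE) {G c k : ℂ → ℂ} {lam : ℂ} (hG : Differentiable ℂ G)
    (hc : Differentiable ℂ c) (hk : Differentiable ℂ k) (hc0 : ∃ z, c z ≠ 0)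
    (h : ∀ z, c z * Complex.exp (G z) = lam * k z) :
    ∃ C : ℝ, ∀ r : ℝ, 1 ≤ r →
      mLog (fun z => Complex.exp (G z)) r ≤ C + mLog k r + mLog c r := by
  obtain ⟨C, hC⟩ := hJE c hc hc0
  refine ⟨Real.posLog ‖lam‖ + C, ?_⟩
  intro r hr
  have hr0 : r ≠ 0 := by positivity
  have hca : AnalyticOnNhd ℂ c Set.univ := fun z _ => hc.analyticAt z
  have hne : ∀ᶠ z in codiscreteWithin (Metric.sphere (0 : ℂ) |r|), c z ≠ 0 := by
    have h1 : ∀ᶠ z in codiscreteWithin (Set.univ : Set ℂ), c z ≠ 0 := by
      rcases hca.eqOn_zero_or_eventually_ne_zero_of_preconnected isPreconnected_univ with h1 | h1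
      · obtain ⟨z, hz⟩ := hc0
        exact absurd (h1 (Set.mem_univ z)) hz
      · exact h1
    exact codiscreteWithin_mono (Set.subset_univ _) h1
  have hI : CircleIntegrable (fun z => Real.posLog ‖(c z)⁻¹‖) 0 r := by
    have hm : MeromorphicOn (fun z => (c z)⁻¹) (Metric.sphere 0 |r|) := fun z _ =>
      (hc.analyticAt z).meromorphicAt.inv
    exact hm.circleIntegrable_posLog_norm
  have cexp : Continuous (fun z => Real.posLog ‖Complex.exp (G z)‖) :=
    cont_pl (Complex.continuous_exp.comp hG.continuous)
  have ck : Continuous (fun z => Real.posLog ‖k z‖) := cont_pl hk.continuous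
  have hev : (fun z => Real.posLog ‖Complex.exp (G z)‖) =ᶠ[codiscreteWithin
      (Metric.sphere (0 : ℂ) |r|)] fun z => if c z = 0 then 0 else
        Real.posLog ‖Complex.exp (G z)‖ := by
    filter_upwards [hne] with z hz
    rw [if_neg hz]
  have e1 : mLog (fun z => Complex.exp (G z)) r = circleAverage (fun z => if c z = 0 then 0 else
        Real.posLog ‖Complex.exp (G z)‖) 0 r := by
    unfold mLog
    exact circleAverage_congr_codiscreteWithin hev hr0
  have hI1 : CircleIntegrable (fun z => if c z = 0 then 0 else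
        Real.posLog ‖Complex.exp (G z)‖) 0 r :=
    CircleIntegrable.congr_codiscreteWithin hev (ci cexp r)
  have hI2 : CircleIntegrable (fun z => Real.posLog ‖lam‖ + Real.posLog ‖k z‖) 0 r :=
    ci (continuous_const.add ck) r
  have hle : circleAverage (fun z => if c z = 0 then 0 else
        Real.posLog ‖Complex.exp (G z)‖) 0 r ≤
      circleAverage (fun z => (Real.posLog ‖lam‖ + Real.posLog ‖k z‖) +
        Real.posLog ‖(c z)⁻¹‖) 0 r := by
    apply circleAverage_mono hI1 (hI2.add hI)
    intro z _
    by_cases hz : c z = 0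
    · simp only [if_pos hz, Pi.add_apply]
      have h1 : 0 ≤ Real.posLog ‖lam‖ := Real.posLog_nonneg
      have h2 : 0 ≤ Real.posLog ‖k z‖ := Real.posLog_nonneg
      have h3 : 0 ≤ Real.posLog ‖(c z)⁻¹‖ := Real.posLog_nonneg
      linarith
    · simp only [if_neg hz, Pi.add_apply]
      have e2 : Complex.exp (G z) = lam * k z * (c z)⁻¹ := by
        rw [← h z]
        field_simp
      rw [e2, norm_mul, norm_mul]
      have h1 : Real.posLog (‖lam‖ * ‖k z‖ * ‖(c z)⁻¹‖) ≤
          Real.posLog (‖lam‖ * ‖k z‖) + Real.posLog ‖(c z)⁻¹‖ := Real.posLog_mul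
      have h2 : Real.posLog (‖lam‖ * ‖k z‖) ≤ Real.posLog ‖lam‖ + Real.posLog ‖k z‖ :=
        Real.posLog_mul
      linarith
  have e3 := circleAverage_fun_add (c := 0) (R := r)
    (f₁ := fun z => Real.posLog ‖lam‖ + Real.posLog ‖k z‖)
    (f₂ := fun z => Real.posLog ‖(c z)⁻¹‖) hI2 hI
  have e4 := circleAverage_fun_add (c := 0) (R := r) (f₁ := fun _ : ℂ => Real.posLog ‖lam‖)
    (f₂ := fun z => Real.posLog ‖k z‖) (ci continuous_const r) (ci ck r)
  rw [e3, e4, circleAverage_const] at hle
  have h5 := hC r hr
  rw [e1]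
  have e5 : circleAverage (fun z => Real.posLog ‖k z‖) 0 r = mLog k r := rfl
  rw [e5] at hle
  linarith

theorem neg_of_rel (hJE : S_JE) {U : Filter ℕ} {R T : ℕ → ℝ} (hS : Scale U R T)
    {G c k : ℂ → ℂ} {lam : ℂ} (hG : Differentiable ℂ G) (hc : Sm U R T c) (hk : Sm U R T k)
    (hc0 : ∃ z, c z ≠ 0) (h : ∀ z, c z * Complex.exp (G z) = lam * k z) : Neg U R T G := by
  obtain ⟨C, hC⟩ := mLog_exp_bound hJE hG hc.1 hk.1 hc0 h
  have h1 := hk.2 0
  have h2 := hc.2 0
  rw [iteratedDeriv_zero] at h1 h2
  have h1' : Tendsto (fun n => (2 * mLog k (R n)) / T n) U (𝓝 0) := by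
    have := h1.const_mul 2
    rw [mul_zero] at this
    refine this.congr (fun n => ?_)
    ring
  have h2' : Tendsto (fun n => (2 * mLog c (R n)) / T n) U (𝓝 0) := by
    have := h2.const_mul 2
    rw [mul_zero] at this
    refine this.congr (fun n => ?_)
    ring
  refine tend_of_le (C := 2 * C - (G 0).re) hS.pos hS.top (fun n => mRe_nonneg _ _)
    (fun n => ?_) h1' h2'
  rw [RE G hG (R n)]
  have := hC (R n) (hS.one_le n)
  linarith

end BWaux

open BWaux

theorem BW (hJE : S_JE) : S_BW := by
  intro U R T hS s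
  obtain ⟨-, hA, hM, hD, -⟩ := SM U R T hS
  have hK := (SM U R T hS).1
  induction s using Finset.strongInduction with
  | H s ih =>
    intro c g hne hc hc0 hg hg' hrel
    obtain ⟨i0, hi0⟩ := hne
    by_cases hs1 : (s.erase i0).Nonempty
    swap
    · -- a single term
      exfalso
      have hs : s = {i0} := by
        rw [Finset.not_nonempty_iff_eq_empty] at hs1
        rw [← Finset.insert_erase hi0, hs1]
        rfl
      obtain ⟨z, hz⟩ := hc0 i0 hi0
      have := hrel z
      rw [hs, Finset.sum_singleton] at this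
      exact hz ((mul_eq_zero.1 this).resolve_right (Complex.exp_ne_zero _))
    · set d : ℕ → ℂ → ℂ := fun i z => c i0 z * (deriv (c i) z + c i z * deriv (g i) z) +
        (-1) * (c i z * (deriv (c i0) z + c i0 z * deriv (g i0) z)) with hd
      have hdSm : ∀ i ∈ s, Sm U R T (d i) := by
        intro i hi
        have h1 := hc i hi
        have h2 := hc i0 hi0
        have h3 := hg' i hi
        have h4 := hg' i0 hi0
        exact hA _ _ (hM _ _ h2 (hA _ _ (hD _ h1) (hM _ _ h1 h3)))
          (hM _ _ (hK (-1)) (hM _ _ h1 (hA _ _ (hD _ h2) (hM _ _ h2 h4))))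
      have hder : ∀ z, ∑ i ∈ s, (deriv (c i) z + c i z * deriv (g i) z) *
          Complex.exp (g i z) = 0 := by
        intro z
        have h1 : HasDerivAt (fun z => ∑ i ∈ s, c i z * Complex.exp (g i z))
            (∑ i ∈ s, (deriv (c i) z * Complex.exp (g i z) +
              c i z * (Complex.exp (g i z) * deriv (g i) z))) z := by
          apply HasDerivAt.fun_sum
          intro i hi
          exact ((hc i hi).1 z).hasDerivAt.mul ((hg i hi) z).hasDerivAt.cexp
        have h2 : (fun z => ∑ i ∈ s, c i z * Complex.exp (g i z)) = fun _ => 0 := funext hrel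
        rw [h2] at h1
        have h3 := h1.unique (hasDerivAt_const z (0 : ℂ))
        rw [← h3]
        apply Finset.sum_congr rfl
        intro i _
        ring
      have hdrel : ∀ z, ∑ i ∈ s, d i z * Complex.exp (g i z) = 0 := by
        intro z
        have e : ∑ i ∈ s, d i z * Complex.exp (g i z) =
            c i0 z * ∑ i ∈ s, (deriv (c i) z + c i z * deriv (g i) z) * Complex.exp (g i z) -
            (deriv (c i0) z + c i0 z * deriv (g i0) z) *
              ∑ i ∈ s, c i z * Complex.exp (g i z) := by
          rw [Finset.mul_sum, Finset.mul_sum, ← Finset.sum_sub_distrib]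
          apply Finset.sum_congr rfl
          intro i _
          simp only [hd]
          ring
        rw [e, hder, hrel]
        ring
      have hd0 : ∀ z, d i0 z = 0 := by
        intro z
        simp only [hd]
        ring
      classical
      set s' : Finset ℕ := (s.erase i0).filter (fun i => ∃ z, d i z ≠ 0) with hs'
      by_cases hne' : s'.Nonempty
      · have hsub : s' ⊆ s := (Finset.filter_subset _ _).trans (Finset.erase_subset _ _)
        have hss : s' ⊂ s := by
          refine (Finset.ssubset_iff_of_subset hsub).2 ⟨i0, hi0, ?_⟩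
          intro h
          exact (Finset.notMem_erase i0 s) (Finset.mem_of_mem_filter i0 h)
        have hrel' : ∀ z, ∑ i ∈ s', d i z * Complex.exp (g i z) = 0 := by
          intro z
          rw [← hdrel z]
          apply Finset.sum_subset hsub
          intro i hi hi'
          have hdi : d i z = 0 := by
            by_contra hcon
            apply hi'
            rw [hs', Finset.mem_filter, Finset.mem_erase]
            refine ⟨⟨?_, hi⟩, z, hcon⟩
            intro h
            rw [h] at hcon
            exact hcon (hd0 z)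
          rw [hdi, zero_mul]
        obtain ⟨i, hi, j, hj, hij, hneg⟩ := ih s' hss d g hne' (fun i hi => hdSm i (hsub hi))
          (fun i hi => (Finset.mem_filter.1 hi).2) (fun i hi => hg i (hsub hi))
          (fun i hi => hg' i (hsub hi)) hrel'
        exact ⟨i, hsub hi, j, hsub hj, hij, hneg⟩
      · obtain ⟨i, hi⟩ := hs1
        have hii0 : i ≠ i0 := (Finset.mem_erase.1 hi).1
        have his : i ∈ s := (Finset.mem_erase.1 hi).2
        have hdi : ∀ z, d i z = 0 := by
          intro z
          by_contra hcon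
          apply hne'
          exact ⟨i, Finset.mem_filter.2 ⟨hi, z, hcon⟩⟩
        refine ⟨i, his, i0, hi0, hii0, ?_⟩
        have hGd : Differentiable ℂ (fun z => g i z - g i0 z) := (hg i his).sub (hg i0 hi0)
        obtain ⟨z0, hz0⟩ := hc0 i0 hi0
        have hHd : Differentiable ℂ (fun z => c i z * Complex.exp (g i z - g i0 z)) :=
          (hc i his).1.mul hGd.cexp
        obtain ⟨lam, hlam⟩ := prop_of_wronskian hHd (hc i0 hi0).1 (by
          intro z
          have h1 : HasDerivAt (fun z => c i z * Complex.exp (g i z - g i0 z))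
              (deriv (c i) z * Complex.exp (g i z - g i0 z) + c i z *
                (Complex.exp (g i z - g i0 z) * (deriv (g i) z - deriv (g i0) z))) z :=
            ((hc i his).1 z).hasDerivAt.mul
              ((hg i his z).hasDerivAt.sub (hg i0 hi0 z).hasDerivAt).cexp
          rw [h1.deriv]
          have h2 := hdi z
          simp only [hd] at h2
          linear_combination Complex.exp (g i z - g i0 z) * h2) z0 hz0
        exact neg_of_rel hJE hS hGd (hc i his) (hc i0 hi0) (hc0 i his) hlam

end Pool.Agent.R876.SV
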