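import Pool.Agent.R876.SV.Stm

/-!
Project SV, CORE part A: the deformed unit equation at a point.
-/

namespace Pool.Agent.R876.SV

open Filter Topology

/-- The deformed unit equation at a point. -/
def EQt (α β α' β' : ℝ) (p q p' q' P D : ℂ) : Prop :=
  ∀ t : ℂ,
    Complex.exp (t * α' + p') * (1 - Complex.exp (t * β' + q')) * Complex.exp (t * β + q) *
        (Complex.exp (t * α + p) - 1) ^ 2 =
      (Complex.exp (t * α' + p') - 1) *
        (Complex.exp (t * α + p) * Complex.exp (t * β + q) * (1 - Complex.exp (t * β + q)) *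
            (Complex.exp (t * α + p) - 1) -
          D * (Complex.exp (t * α + p) - 1) -
          P * Complex.exp (t * α + p) * (1 - Complex.exp (t * β + q)))

lemma EQt.neg {α β α' β' : ℝ} {p q p' q' P D : ℂ} (h : EQt α β α' β' p q p' q' P D) :
    EQt (-α) (-β) (-α') (-β') p q p' q' P D := by
  intro t
  have := h (-t)
  simpa using this

lemma exp_two_pi_int (n : ℤ) : Complex.exp (2 * Real.pi * Complex.I * n) = 1 := by
  rw [Complex.exp_eq_one_iff]
  exact ⟨n, by ring⟩

lemma A1 {α β α' β' : ℝ} {p q p' q' P D : ℂ} (hα : α ≠ 0) (hP : P ≠ 0)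
    (h' : α' ≠ 0 ∨ Complex.exp p' ≠ 1) (h : EQt α β α' β' p q p' q' P D) (n : ℤ) :
    Complex.exp (((2 * Real.pi * Complex.I * n - p) / α) * β + q) = 1 := by
  set t0 : ℂ := (2 * Real.pi * Complex.I * n - p) / α with ht0
  have hαc : (α : ℂ) ≠ 0 := by exact_mod_cast hα
  have hv : Complex.exp (t0 * α + p) = 1 := by
    rw [ht0, div_mul_cancel₀ _ hαc, sub_add_cancel]
    exact exp_two_pi_int n
  have h0 := h t0
  rw [hv] at h0
  have h1 : (Complex.exp (t0 * α' + p') - 1) * (P * (1 - Complex.exp (t0 * β + q))) = 0 := by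
    linear_combination h0
  by_cases hV : Complex.exp (t0 * α' + p') = 1
  · -- differentiate
    have hα' : α' ≠ 0 := by
      intro h0'
      rcases h' with h' | h'
      · exact h' h0'
      · apply h'
        rw [h0'] at hV
        simpa using hV
    have hα'c : (α' : ℂ) ≠ 0 := by exact_mod_cast hα'
    let L : ℂ → ℂ := fun t => Complex.exp (t * α' + p') * (1 - Complex.exp (t * β' + q')) *
      Complex.exp (t * β + q)
    let Q : ℂ → ℂ := fun t => Complex.exp (t * α + p) * Complex.exp (t * β + q) *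
            (1 - Complex.exp (t * β + q)) *
            (Complex.exp (t * α + p) - 1) -
          D * (Complex.exp (t * α + p) - 1) -
          P * Complex.exp (t * α + p) * (1 - Complex.exp (t * β + q))
    have hL : HasDerivAt L (deriv L t0) t0 := by
      apply DifferentiableAt.hasDerivAt
      fun_prop
    have hQ : HasDerivAt Q (deriv Q t0) t0 := by
      apply DifferentiableAt.hasDerivAt
      fun_prop
    have hvd : HasDerivAt (fun t : ℂ => Complex.exp (t * α + p) - 1)
        (Complex.exp (t0 * α + p) * α) t0 := by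
      have : HasDerivAt (fun t : ℂ => t * α + p) (α : ℂ) t0 := by
        simpa using ((hasDerivAt_id t0).mul_const (α : ℂ)).add_const p
      exact (this.cexp).sub_const 1
    have hVd : HasDerivAt (fun t : ℂ => Complex.exp (t * α' + p') - 1)
        (Complex.exp (t0 * α' + p') * α') t0 := by
      have : HasDerivAt (fun t : ℂ => t * α' + p') (α' : ℂ) t0 := by
        simpa using ((hasDerivAt_id t0).mul_const (α' : ℂ)).add_const p'
      exact (this.cexp).sub_const 1
    have hl := hL.mul (hvd.pow 2)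
    have hr := hVd.mul hQ
    have hfun : (L * (fun t : ℂ => Complex.exp (t * α + p) - 1) ^ 2) =
        ((fun t : ℂ => Complex.exp (t * α' + p') - 1) * Q) := by
      funext t
      simp only [Pi.mul_apply, Pi.pow_apply, L, Q]
      exact h t
    rw [hfun] at hl
    have huni := hl.unique hr
    simp only [Pi.pow_apply, hv, hV, sub_self] at huni
    have hQ0 : Q t0 = 0 := by
      have : (α' : ℂ) * Q t0 = 0 := by
        have := huni
        norm_num at this
        rcases this with h | h
        · exact absurd h (by exact_mod_cast hα')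
        · rw [h]; simp
      rcases mul_eq_zero.1 this with h | h
      · exact absurd h hα'c
      · exact h
    have : P * (1 - Complex.exp (t0 * β + q)) = 0 := by
      have h2 : Q t0 = - (P * (1 - Complex.exp (t0 * β + q))) := by
        simp only [Q, hv]; ring
      rw [hQ0] at h2
      linear_combination h2
    rcases mul_eq_zero.1 this with h | h
    · exact absurd h hP
    · linear_combination -h
  · rcases mul_eq_zero.1 h1 with h | h
    · exact absurd (by linear_combination h) hV
    · rcases mul_eq_zero.1 h with h | h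
      · exact absurd h hP
      · linear_combination -h

/-- Integer ratio. -/
lemma A2 {α β : ℝ} {p q : ℂ} (hα : α ≠ 0)
    (h : ∀ n : ℤ, Complex.exp (((2 * Real.pi * Complex.I * n - p) / α) * β + q) = 1) :
    ∃ k : ℤ, β = k * α ∧ Complex.exp (q - k * p) = 1 := by
  have hαc : (α : ℂ) ≠ 0 := by exact_mod_cast hα
  have h0 := h 0
  have h1 := h 1
  have h2 : Complex.exp (2 * Real.pi * Complex.I * (β / α)) = 1 := by
    have : 2 * (Real.pi : ℂ) * Complex.I * (β / α) =
        (((2 * Real.pi * Complex.I * (1 : ℤ) - p) / α) * β + q) -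
          (((2 * Real.pi * Complex.I * (0 : ℤ) - p) / α) * β + q) := by
      push_cast
      field_simp
      ring
    rw [this, Complex.exp_sub, h0, h1, div_one]
  rw [Complex.exp_eq_one_iff] at h2
  obtain ⟨k, hk⟩ := h2
  have hpi : (2 * (Real.pi : ℂ) * Complex.I) ≠ 0 := Complex.two_pi_I_ne_zero
  have hk' : (β : ℂ) / α = k := by
    have : (2 * (Real.pi : ℂ) * Complex.I) * (β / α) = (2 * (Real.pi : ℂ) * Complex.I) * k := by
      rw [hk]; ring
    exact mul_left_cancel₀ hpi this
  have hb : (β : ℂ) = k * α := by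
    field_simp at hk'
    linear_combination hk'
  refine ⟨k, by exact_mod_cast hb, ?_⟩
  have : q - k * p = ((2 * Real.pi * Complex.I * (0 : ℤ) - p) / α) * β + q := by
    rw [hb]; push_cast; field_simp; ring
  rw [this]; exact h0

lemma B1 {β α' β' : ℝ} {p q p' q' P D : ℂ} (hα' : α' ≠ 0) (hp : Complex.exp p ≠ 1)
    (h : EQt 0 β α' β' p q p' q' P D) (n : ℤ) :
    Complex.exp (((2 * Real.pi * Complex.I * n - p') / α') * β' + q') = 1 := by
  set t0 : ℂ := (2 * Real.pi * Complex.I * n - p') / α' with ht0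
  have hαc : (α' : ℂ) ≠ 0 := by exact_mod_cast hα'
  have hV : Complex.exp (t0 * α' + p') = 1 := by
    rw [ht0, div_mul_cancel₀ _ hαc, sub_add_cancel]
    exact exp_two_pi_int n
  have h0 := h t0
  rw [hV] at h0
  simp only [Complex.ofReal_zero, mul_zero, zero_add, one_mul, sub_self, zero_mul] at h0
  have h3 : Complex.exp p - 1 ≠ 0 := sub_ne_zero.2 hp
  rcases mul_eq_zero.1 h0 with h | h
  · rcases mul_eq_zero.1 h with h | h
    · linear_combination -h
    · exact absurd h (Complex.exp_ne_zero _)
  · exact absurd (pow_eq_zero_iff (by norm_num) |>.1 h) h3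

/-- exponential of a real multiple tending to zero -/
lemma tendsto_exp_zero {β : ℝ} (hβ : 0 < β) (q : ℂ) :
    Tendsto (fun t : ℝ => Complex.exp ((-(t : ℂ)) * β + q)) atTop (𝓝 0) := by
  rw [tendsto_zero_iff_norm_tendsto_zero]
  simp_rw [Complex.norm_exp]
  have : (fun t : ℝ => Real.exp ((-(t : ℂ)) * β + q).re) = fun t : ℝ => Real.exp (q.re + -(β * t)) := by
    funext t
    congr 1
    simp [mul_comm]
    ring
  rw [this]
  apply Real.tendsto_exp_atBot.comp
  apply Filter.tendsto_atBot_add_const_left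
  exact Filter.tendsto_neg_atTop_atBot.comp (Filter.Tendsto.const_mul_atTop hβ tendsto_id)

/-- norm of an exponential with nonpositive rate stays bounded -/
lemma bounded_exp {β : ℝ} (hβ : 0 ≤ β) (q : ℂ) {t : ℝ} (ht : 0 ≤ t) :
    ‖Complex.exp ((-(t : ℂ)) * β + q)‖ ≤ Real.exp q.re := by
  rw [Complex.norm_exp]
  apply Real.exp_le_exp.2
  simp
  positivity

lemma C1pos {β β' : ℝ} {p q p' q' P D : ℂ} (hβ : 0 < β)
    (hp : Complex.exp p ≠ 1) (hp' : Complex.exp p' ≠ 1)
    (h : EQt 0 β 0 β' p q p' q' P D) : D * (Complex.exp p - 1) + P * Complex.exp p = 0 := by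
  have h3 : Complex.exp p - 1 ≠ 0 := sub_ne_zero.2 hp
  have h4 : Complex.exp p' - 1 ≠ 0 := sub_ne_zero.2 hp'
  set v := Complex.exp p with hv
  set V := Complex.exp p' with hV
  have hvne : v ≠ 0 := Complex.exp_ne_zero _
  by_cases hβ' : 0 < β'
  · -- t → -∞
    have hw := tendsto_exp_zero hβ q
    have hW := tendsto_exp_zero hβ' q'
    have h1 : Tendsto (fun t : ℝ => V * (1 - Complex.exp ((-(t : ℂ)) * β' + q')) *
        Complex.exp ((-(t : ℂ)) * β + q) * (v - 1) ^ 2) atTop (𝓝 (V * (1 - 0) * 0 * (v - 1) ^ 2)) :=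
      ((tendsto_const_nhds.mul (tendsto_const_nhds.sub hW)).mul hw).mul tendsto_const_nhds
    have h2 : Tendsto (fun t : ℝ => (V - 1) *
        (v * Complex.exp ((-(t : ℂ)) * β + q) * (1 - Complex.exp ((-(t : ℂ)) * β + q)) *
            (v - 1) - D * (v - 1) - P * v * (1 - Complex.exp ((-(t : ℂ)) * β + q)))) atTop
        (𝓝 ((V - 1) * (v * 0 * (1 - 0) * (v - 1) - D * (v - 1) - P * v * (1 - 0)))) :=
      tendsto_const_nhds.mul ((((tendsto_const_nhds.mul hw).mul
        (tendsto_const_nhds.sub hw)).mul tendsto_const_nhds).sub tendsto_const_nhds |>.sub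
        (tendsto_const_nhds.mul (tendsto_const_nhds.sub hw)))
    have heq : (fun t : ℝ => V * (1 - Complex.exp ((-(t : ℂ)) * β' + q')) *
        Complex.exp ((-(t : ℂ)) * β + q) * (v - 1) ^ 2) = (fun t : ℝ => (V - 1) *
        (v * Complex.exp ((-(t : ℂ)) * β + q) * (1 - Complex.exp ((-(t : ℂ)) * β + q)) *
            (v - 1) - D * (v - 1) - P * v * (1 - Complex.exp ((-(t : ℂ)) * β + q)))) := by
      funext t
      have := h (-(t : ℂ))
      simpa [hv, hV] using this
    rw [heq] at h1
    have h5 := tendsto_nhds_unique h1 h2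
    have h6 : (V - 1) * (D * (v - 1) + P * v) = 0 := by linear_combination h5
    rcases mul_eq_zero.1 h6 with h | h
    · exact absurd h h4
    · exact h
  · -- t → +∞ : contradiction
    exfalso
    push Not at hβ'
    -- u = exp(-(tβ+q)) → 0
    have hu := tendsto_exp_zero hβ (-q)
    have hWb : ∀ t : ℝ, 0 ≤ t → ‖Complex.exp ((t : ℂ) * β' + q')‖ ≤ Real.exp q'.re := by
      intro t ht
      have := bounded_exp (β := -β') (by linarith) q' ht
      simpa using this
    have hid : ∀ t : ℝ, V * (1 - Complex.exp ((t : ℂ) * β' + q')) * (v - 1) ^ 2 *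
        Complex.exp ((-(t : ℂ)) * β + -q) =
        (V - 1) * (v * (Complex.exp ((-(t : ℂ)) * β + -q) - 1) * (v - 1) -
          D * (v - 1) * Complex.exp ((-(t : ℂ)) * β + -q) ^ 2 -
          P * v * (Complex.exp ((-(t : ℂ)) * β + -q) - 1) *
            Complex.exp ((-(t : ℂ)) * β + -q)) := by
      intro t
      have h7 := h (t : ℂ)
      simp only [Complex.ofReal_zero, mul_zero, zero_add, ← hv, ← hV] at h7
      have hinv : Complex.exp ((t : ℂ) * β + q) * Complex.exp ((-(t : ℂ)) * β + -q) = 1 := by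
        rw [← Complex.exp_add]
        have : (t : ℂ) * β + q + ((-(t : ℂ)) * β + -q) = 0 := by ring
        rw [this, Complex.exp_zero]
      set w := Complex.exp ((t : ℂ) * β + q)
      set u := Complex.exp ((-(t : ℂ)) * β + -q)
      set W := Complex.exp ((t : ℂ) * β' + q')
      linear_combination u ^ 2 * h7 +
        (-(V * (1 - W) * (v - 1) ^ 2 * u) + (V - 1) * v * (v - 1) * u - (V-1) * v * (v-1) * (u * w + 1)
          + (V - 1) * P * v * u) * hinv
    have h1 : Tendsto (fun t : ℝ => V * (1 - Complex.exp ((t : ℂ) * β' + q')) * (v - 1) ^ 2 *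
        Complex.exp ((-(t : ℂ)) * β + -q)) atTop (𝓝 0) := by
      apply squeeze_zero_norm' (a := fun t : ℝ => (‖V‖ * (1 + Real.exp q'.re) * ‖(v - 1) ^ 2‖) *
        ‖Complex.exp ((-(t : ℂ)) * β + -q)‖)
      · filter_upwards [eventually_ge_atTop (0 : ℝ)] with t ht
        rw [norm_mul, norm_mul, norm_mul]
        have : ‖1 - Complex.exp ((t : ℂ) * β' + q')‖ ≤ 1 + Real.exp q'.re := by
          refine (norm_sub_le _ _).trans ?_
          rw [norm_one]
          linarith [hWb t ht]
        gcongr
      · have := (tendsto_zero_iff_norm_tendsto_zero.1 hu).const_mul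
          (‖V‖ * (1 + Real.exp q'.re) * ‖(v - 1) ^ 2‖)
        simpa using this
    have h2 : Tendsto (fun t : ℝ => (V - 1) *
        (v * (Complex.exp ((-(t : ℂ)) * β + -q) - 1) * (v - 1) -
          D * (v - 1) * Complex.exp ((-(t : ℂ)) * β + -q) ^ 2 -
          P * v * (Complex.exp ((-(t : ℂ)) * β + -q) - 1) *
            Complex.exp ((-(t : ℂ)) * β + -q))) atTop
        (𝓝 ((V - 1) * (v * (0 - 1) * (v - 1) - D * (v - 1) * 0 ^ 2 - P * v * (0 - 1) * 0))) :=
      tendsto_const_nhds.mul ((((tendsto_const_nhds.mul (hu.sub tendsto_const_nhds)).mul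
        tendsto_const_nhds).sub (tendsto_const_nhds.mul (hu.pow 2))).sub
        ((tendsto_const_nhds.mul (hu.sub tendsto_const_nhds)).mul hu))
    simp_rw [hid] at h1
    have h5 := tendsto_nhds_unique h1 h2
    have h6 : (V - 1) * (v * (v - 1)) = 0 := by linear_combination h5
    rcases mul_eq_zero.1 h6 with h | h
    · exact h4 h
    · rcases mul_eq_zero.1 h with h | h
      · exact hvne h
      · exact h3 h

lemma C1 {β β' : ℝ} {p q p' q' P D : ℂ} (hβ : β ≠ 0)
    (hp : Complex.exp p ≠ 1) (hp' : Complex.exp p' ≠ 1)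
    (h : EQt 0 β 0 β' p q p' q' P D) : D * (Complex.exp p - 1) + P * Complex.exp p = 0 := by
  rcases lt_or_gt_of_ne hβ with h0 | h0
  · have h' := h.neg
    simp only [neg_zero] at h'
    exact C1pos (by linarith) hp hp' h'
  · exact C1pos h0 hp hp' h

lemma C2 {β' : ℝ} {p q p' q' P D : ℂ} (hβ' : β' ≠ 0)
    (hp : Complex.exp p ≠ 1)
    (h : EQt 0 0 0 β' p q p' q' P D) : False := by
  have hβc : (β' : ℂ) ≠ 0 := by exact_mod_cast hβ'
  have h3 : Complex.exp p - 1 ≠ 0 := sub_ne_zero.2 hp
  have h1 := h ((-q') / β')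
  have h2 := h ((Real.pi * Complex.I - q') / β')
  simp only [Complex.ofReal_zero, mul_zero, zero_add, div_mul_cancel₀ _ hβc, neg_add_cancel,
    Complex.exp_zero, sub_self, zero_mul, sub_add_cancel, Complex.exp_pi_mul_I] at h1 h2
  rw [← h1] at h2
  have h4 : Complex.exp p' * (1 - -1) * Complex.exp q * (Complex.exp p - 1) ^ 2 ≠ 0 := by
    refine mul_ne_zero (mul_ne_zero (mul_ne_zero (Complex.exp_ne_zero _) (by norm_num))
      (Complex.exp_ne_zero _)) (pow_ne_zero _ h3)
  exact h4 h2

end Pool.Agent.R876.SV
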