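import Pool.Agent.R876.SV.CoreA

/-!
Project SV, CORE part B: the case `w = v ^ k`, `k ≥ 1`, at a point.
-/

namespace Pool.Agent.R876.SV

open Filter Topology

/-- The deformed unit equation in the case `w = v ^ k`. -/
def EQK (k : ℕ) (α α' : ℝ) (p p' P : ℂ) : Prop :=
  ∀ t : ℂ,
    Complex.exp (t * α' + p') * (1 - Complex.exp (t * α' + p') ^ k) * Complex.exp (t * α + p) ^ k *
        (Complex.exp (t * α + p) - 1) ^ 2 =
      (Complex.exp (t * α' + p') - 1) *
        (Complex.exp (t * α + p) * Complex.exp (t * α + p) ^ k *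
            (1 - Complex.exp (t * α + p) ^ k) * (Complex.exp (t * α + p) - 1) -
          k * P * (Complex.exp (t * α + p) - 1) -
          P * Complex.exp (t * α + p) * (1 - Complex.exp (t * α + p) ^ k))

lemma EQK.neg {k : ℕ} {α α' : ℝ} {p p' P : ℂ} (h : EQK k α α' p p' P) :
    EQK k (-α) (-α') p p' P := by
  intro t
  have := h (-t)
  simpa using this

lemma EQt.toEQK {k : ℕ} {α α' : ℝ} {p q p' q' P : ℂ}
    (h : EQt α (k * α) α' (k * α') p q p' q' P (k * P))
    (hq : Complex.exp q = Complex.exp p ^ k) (hq' : Complex.exp q' = Complex.exp p' ^ k) :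
    EQK k α α' p p' P := by
  intro t
  have h1 := h t
  have e1 : Complex.exp (t * ((k * α : ℝ) : ℂ) + q) = Complex.exp (t * α + p) ^ k := by
    rw [Complex.exp_add, hq, Complex.exp_add, mul_pow, ← Complex.exp_nat_mul (t * (α : ℂ))]
    congr 2
    push_cast; ring
  have e2 : Complex.exp (t * ((k * α' : ℝ) : ℂ) + q') = Complex.exp (t * α' + p') ^ k := by
    rw [Complex.exp_add, hq', Complex.exp_add, mul_pow, ← Complex.exp_nat_mul (t * (α' : ℂ))]
    congr 2
    push_cast; ring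
  rw [e1, e2] at h1
  exact h1

lemma KL1pos {k : ℕ} (hk : 1 ≤ k) {α α' : ℝ} {p p' P : ℂ} (hα : 0 < α) (hP : P ≠ 0)
    (hp' : Complex.exp p' ≠ 1) (h : EQK k α α' p p' P) : False := by
  have hk0 : k ≠ 0 := by omega
  have hkc : (k : ℂ) ≠ 0 := by exact_mod_cast hk0
  have h4 : Complex.exp p' - 1 ≠ 0 := sub_ne_zero.2 hp'
  rcases lt_trichotomy α' 0 with hα' | hα' | hα'
  · -- t → +∞
    have hu := tendsto_exp_zero hα (-p)
    have hV : Tendsto (fun t : ℝ => Complex.exp ((t : ℂ) * α' + p')) atTop (𝓝 0) := by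
      have := tendsto_exp_zero (β := -α') (by linarith) p'
      refine this.congr (fun t => ?_)
      congr 1; push_cast; ring
    have hid : ∀ t : ℝ, Complex.exp ((t : ℂ) * α' + p') *
        (1 - Complex.exp ((t : ℂ) * α' + p') ^ k) *
        Complex.exp ((-(t : ℂ)) * α + -p) ^ k * (1 - Complex.exp ((-(t : ℂ)) * α + -p)) ^ 2 =
        (Complex.exp ((t : ℂ) * α' + p') - 1) *
          ((1 - Complex.exp ((-(t : ℂ)) * α + -p)) *
            (Complex.exp ((-(t : ℂ)) * α + -p) ^ k - 1) -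
          k * P * (1 - Complex.exp ((-(t : ℂ)) * α + -p)) * Complex.exp ((-(t : ℂ)) * α + -p) *
            (Complex.exp ((-(t : ℂ)) * α + -p) ^ k) ^ 2 -
          P * Complex.exp ((-(t : ℂ)) * α + -p) * Complex.exp ((-(t : ℂ)) * α + -p) ^ k *
            (Complex.exp ((-(t : ℂ)) * α + -p) ^ k - 1)) := by
      intro t
      have h7 := h (t : ℂ)
      have hinv : Complex.exp ((-(t : ℂ)) * α + -p) = (Complex.exp ((t : ℂ) * α + p))⁻¹ := by
        rw [← Complex.exp_neg]
        congr 1; ring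
      rw [hinv, inv_pow]
      set v := Complex.exp ((t : ℂ) * α + p) with hv
      have hv0 : v ≠ 0 := Complex.exp_ne_zero _
      have hx0 : v ^ k ≠ 0 := pow_ne_zero _ hv0
      set V := Complex.exp ((t : ℂ) * α' + p')
      generalize hx : v ^ k = x at *
      generalize V ^ k = y at *
      field_simp
      linear_combination h7
    have h1 : Tendsto (fun t : ℝ => Complex.exp ((t : ℂ) * α' + p') *
        (1 - Complex.exp ((t : ℂ) * α' + p') ^ k) *
        Complex.exp ((-(t : ℂ)) * α + -p) ^ k * (1 - Complex.exp ((-(t : ℂ)) * α + -p)) ^ 2) atTop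
        (𝓝 (0 * (1 - 0 ^ k) * 0 ^ k * (1 - 0) ^ 2)) :=
      ((hV.mul (tendsto_const_nhds.sub (hV.pow k))).mul (hu.pow k)).mul
        ((tendsto_const_nhds.sub hu).pow 2)
    have h2 : Tendsto (fun t : ℝ => (Complex.exp ((t : ℂ) * α' + p') - 1) *
          ((1 - Complex.exp ((-(t : ℂ)) * α + -p)) *
            (Complex.exp ((-(t : ℂ)) * α + -p) ^ k - 1) -
          k * P * (1 - Complex.exp ((-(t : ℂ)) * α + -p)) * Complex.exp ((-(t : ℂ)) * α + -p) *
            (Complex.exp ((-(t : ℂ)) * α + -p) ^ k) ^ 2 -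
          P * Complex.exp ((-(t : ℂ)) * α + -p) * Complex.exp ((-(t : ℂ)) * α + -p) ^ k *
            (Complex.exp ((-(t : ℂ)) * α + -p) ^ k - 1))) atTop
        (𝓝 ((0 - 1) * ((1 - 0) * (0 ^ k - 1) - k * P * (1 - 0) * 0 * (0 ^ k) ^ 2 -
          P * 0 * 0 ^ k * (0 ^ k - 1)))) :=
      (hV.sub tendsto_const_nhds).mul
        ((((tendsto_const_nhds.sub hu).mul ((hu.pow k).sub tendsto_const_nhds)).sub
          (((tendsto_const_nhds.mul (tendsto_const_nhds.sub hu)).mul hu).mul
            ((hu.pow k).pow 2))).sub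
          (((tendsto_const_nhds.mul hu).mul (hu.pow k)).mul ((hu.pow k).sub tendsto_const_nhds)))
    simp_rw [hid] at h1
    have h5 := tendsto_nhds_unique h1 h2
    simp [hk0] at h5
  · -- α' = 0
    subst hα'
    have hv := tendsto_exp_zero hα p
    have h1 : Tendsto (fun t : ℝ => Complex.exp p' * (1 - Complex.exp p' ^ k) *
        Complex.exp ((-(t : ℂ)) * α + p) ^ k * (Complex.exp ((-(t : ℂ)) * α + p) - 1) ^ 2) atTop
        (𝓝 (Complex.exp p' * (1 - Complex.exp p' ^ k) * 0 ^ k * (0 - 1) ^ 2)) :=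
      ((tendsto_const_nhds).mul (hv.pow k)).mul ((hv.sub tendsto_const_nhds).pow 2)
    have h2 : Tendsto (fun t : ℝ => (Complex.exp p' - 1) *
        (Complex.exp ((-(t : ℂ)) * α + p) * Complex.exp ((-(t : ℂ)) * α + p) ^ k *
            (1 - Complex.exp ((-(t : ℂ)) * α + p) ^ k) * (Complex.exp ((-(t : ℂ)) * α + p) - 1) -
          k * P * (Complex.exp ((-(t : ℂ)) * α + p) - 1) -
          P * Complex.exp ((-(t : ℂ)) * α + p) * (1 - Complex.exp ((-(t : ℂ)) * α + p) ^ k))) atTop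
        (𝓝 ((Complex.exp p' - 1) * (0 * 0 ^ k * (1 - 0 ^ k) * (0 - 1) - k * P * (0 - 1) -
          P * 0 * (1 - 0 ^ k)))) :=
      tendsto_const_nhds.mul ((((hv.mul (hv.pow k)).mul (tendsto_const_nhds.sub (hv.pow k))).mul
        (hv.sub tendsto_const_nhds)).sub (tendsto_const_nhds.mul (hv.sub tendsto_const_nhds)) |>.sub
        ((tendsto_const_nhds.mul hv).mul (tendsto_const_nhds.sub (hv.pow k))))
    have heq : (fun t : ℝ => Complex.exp p' * (1 - Complex.exp p' ^ k) *
        Complex.exp ((-(t : ℂ)) * α + p) ^ k * (Complex.exp ((-(t : ℂ)) * α + p) - 1) ^ 2) =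
        (fun t : ℝ => (Complex.exp p' - 1) *
        (Complex.exp ((-(t : ℂ)) * α + p) * Complex.exp ((-(t : ℂ)) * α + p) ^ k *
            (1 - Complex.exp ((-(t : ℂ)) * α + p) ^ k) * (Complex.exp ((-(t : ℂ)) * α + p) - 1) -
          k * P * (Complex.exp ((-(t : ℂ)) * α + p) - 1) -
          P * Complex.exp ((-(t : ℂ)) * α + p) *
            (1 - Complex.exp ((-(t : ℂ)) * α + p) ^ k))) := by
      funext t
      have := h (-(t : ℂ))
      simpa using this
    rw [heq] at h1
    have h5 := tendsto_nhds_unique h1 h2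
    have h6 : (Complex.exp p' - 1) * (k * P) = 0 := by
      simp only [zero_pow hk0] at h5
      linear_combination -h5
    exact (mul_ne_zero h4 (mul_ne_zero hkc hP)) h6
  · -- α' > 0, t → -∞
    have hv := tendsto_exp_zero hα p
    have hV := tendsto_exp_zero hα' p'
    have h1 : Tendsto (fun t : ℝ => Complex.exp ((-(t : ℂ)) * α' + p') *
        (1 - Complex.exp ((-(t : ℂ)) * α' + p') ^ k) *
        Complex.exp ((-(t : ℂ)) * α + p) ^ k * (Complex.exp ((-(t : ℂ)) * α + p) - 1) ^ 2) atTop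
        (𝓝 (0 * (1 - 0 ^ k) * 0 ^ k * (0 - 1) ^ 2)) :=
      ((hV.mul (tendsto_const_nhds.sub (hV.pow k))).mul (hv.pow k)).mul
        ((hv.sub tendsto_const_nhds).pow 2)
    have h2 : Tendsto (fun t : ℝ => (Complex.exp ((-(t : ℂ)) * α' + p') - 1) *
        (Complex.exp ((-(t : ℂ)) * α + p) * Complex.exp ((-(t : ℂ)) * α + p) ^ k *
            (1 - Complex.exp ((-(t : ℂ)) * α + p) ^ k) * (Complex.exp ((-(t : ℂ)) * α + p) - 1) -
          k * P * (Complex.exp ((-(t : ℂ)) * α + p) - 1) -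
          P * Complex.exp ((-(t : ℂ)) * α + p) * (1 - Complex.exp ((-(t : ℂ)) * α + p) ^ k))) atTop
        (𝓝 ((0 - 1) * (0 * 0 ^ k * (1 - 0 ^ k) * (0 - 1) - k * P * (0 - 1) -
          P * 0 * (1 - 0 ^ k)))) :=
      (hV.sub tendsto_const_nhds).mul ((((hv.mul (hv.pow k)).mul
        (tendsto_const_nhds.sub (hv.pow k))).mul
        (hv.sub tendsto_const_nhds)).sub (tendsto_const_nhds.mul (hv.sub tendsto_const_nhds)) |>.sub
        ((tendsto_const_nhds.mul hv).mul (tendsto_const_nhds.sub (hv.pow k))))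
    have heq : (fun t : ℝ => Complex.exp ((-(t : ℂ)) * α' + p') *
        (1 - Complex.exp ((-(t : ℂ)) * α' + p') ^ k) *
        Complex.exp ((-(t : ℂ)) * α + p) ^ k * (Complex.exp ((-(t : ℂ)) * α + p) - 1) ^ 2) =
        (fun t : ℝ => (Complex.exp ((-(t : ℂ)) * α' + p') - 1) *
        (Complex.exp ((-(t : ℂ)) * α + p) * Complex.exp ((-(t : ℂ)) * α + p) ^ k *
            (1 - Complex.exp ((-(t : ℂ)) * α + p) ^ k) * (Complex.exp ((-(t : ℂ)) * α + p) - 1) -
          k * P * (Complex.exp ((-(t : ℂ)) * α + p) - 1) -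
          P * Complex.exp ((-(t : ℂ)) * α + p) *
            (1 - Complex.exp ((-(t : ℂ)) * α + p) ^ k))) := by
      funext t
      exact h (-(t : ℂ))
    rw [heq] at h1
    have h5 := tendsto_nhds_unique h1 h2
    have h6 : (k : ℂ) * P = 0 := by
      simp only [zero_pow hk0] at h5
      linear_combination h5
    exact (mul_ne_zero hkc hP) h6

lemma KL1 {k : ℕ} (hk : 1 ≤ k) {α α' : ℝ} {p p' P : ℂ} (hα : α ≠ 0) (hP : P ≠ 0)
    (hp' : Complex.exp p' ≠ 1) (h : EQK k α α' p p' P) : False := by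
  rcases lt_or_gt_of_ne hα with h0 | h0
  · exact KL1pos hk (by linarith) hP hp' h.neg
  · exact KL1pos hk h0 hP hp' h

lemma KL2 {k : ℕ} (hk : 1 ≤ k) {α' : ℝ} {p p' P : ℂ} (hα' : α' ≠ 0)
    (hp : Complex.exp p ≠ 1) (h : EQK k 0 α' p p' P) : False := by
  have hαc : (α' : ℂ) ≠ 0 := by exact_mod_cast hα'
  have h3 : Complex.exp p - 1 ≠ 0 := sub_ne_zero.2 hp
  have hv0 : Complex.exp p ≠ 0 := Complex.exp_ne_zero _
  have key : ∀ y : ℂ, y ≠ 0 → y * (1 - y ^ k) * (Complex.exp p ^ k * (Complex.exp p - 1) ^ 2) =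
      (y - 1) * (Complex.exp p * Complex.exp p ^ k *
            (1 - Complex.exp p ^ k) * (Complex.exp p - 1) -
          k * P * (Complex.exp p - 1) -
          P * Complex.exp p * (1 - Complex.exp p ^ k)) := by
    intro y hy
    have h1 := h ((Complex.log y - p') / α')
    have hV : Complex.exp ((Complex.log y - p') / α' * α' + p') = y := by
      rw [div_mul_cancel₀ _ hαc, sub_add_cancel, Complex.exp_log hy]
    simp only [hV, Complex.ofReal_zero, mul_zero, zero_add] at h1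
    linear_combination h1
  have e2 := key 2 (by norm_num)
  have e4 := key 4 (by norm_num)
  set C := Complex.exp p ^ k * (Complex.exp p - 1) ^ 2 with hC
  have hC0 : C ≠ 0 := mul_ne_zero (pow_ne_zero _ hv0) (pow_ne_zero _ h3)
  set κ := Complex.exp p * Complex.exp p ^ k *
            (1 - Complex.exp p ^ k) * (Complex.exp p - 1) -
          k * P * (Complex.exp p - 1) -
          P * Complex.exp p * (1 - Complex.exp p ^ k)
  have h44 : (4 : ℂ) ^ k = ((2 : ℂ) ^ k) ^ 2 := by
    rw [← pow_mul, mul_comm k 2, pow_mul]; norm_num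
  rw [h44] at e4
  have h6 : C * ((1 - (2 : ℂ) ^ k) * (2 * (2 : ℂ) ^ k - 1)) = 0 := by
    linear_combination (1 / 2) * e4 - (3 / 2) * e2
  rcases mul_eq_zero.1 h6 with h | h
  · exact hC0 h
  · have hpow : (2 : ℝ) ≤ (2 : ℝ) ^ k := by
      calc (2 : ℝ) = 2 ^ 1 := by norm_num
        _ ≤ 2 ^ k := pow_le_pow_right₀ (by norm_num) hk
    rcases mul_eq_zero.1 h with h | h
    · have : ((1 - (2 : ℝ) ^ k : ℝ) : ℂ) = 0 := by push_cast; exact h
      rw [Complex.ofReal_eq_zero] at this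
      linarith
    · have : ((2 * (2 : ℝ) ^ k - 1 : ℝ) : ℂ) = 0 := by push_cast; exact h
      rw [Complex.ofReal_eq_zero] at this
      linarith

end Pool.Agent.R876.SV
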