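import Pool.Agent.R876.SV.CoreB

/-!
Project SV, CORE part C: scales, functionals, and the two stages.
-/

namespace Pool.Agent.R876.SV

open Filter Topology

lemma gen {h : ℂ → ℂ} (hd : Differentiable ℂ h) (hne : ∃ z, h z ≠ 0) (z0 : ℂ) :
    ∀ᶠ x in 𝓝[≠] z0, h x ≠ 0 := by
  have ha : AnalyticOnNhd ℂ h Set.univ := fun z _ => hd.analyticAt z
  rcases (ha z0 (Set.mem_univ _)).eventually_eq_zero_or_eventually_ne_zero with h0 | h0
  · exfalso
    obtain ⟨z, hz⟩ := hne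
    have := ha.eqOn_zero_of_preconnected_of_eventuallyEq_zero isPreconnected_univ
      (Set.mem_univ z0) h0
    exact hz (this (Set.mem_univ z))
  · exact h0

lemma ident {f g : ℂ → ℂ} (hf : Differentiable ℂ f) (hg : Differentiable ℂ g) {z0 : ℂ}
    (h : ∀ᶠ x in 𝓝[≠] z0, f x = g x) : ∀ z, f z = g z := by
  by_contra hcon
  push Not at hcon
  obtain ⟨z, hz⟩ := hcon
  have := gen (h := fun z => f z - g z) (hf.sub hg) ⟨z, sub_ne_zero.2 hz⟩ z0
  obtain ⟨x, hx⟩ := (h.and this).exists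
  exact hx.2 (sub_eq_zero.2 hx.1)

/-- The context of the argument. -/
structure Ctx (U : Ultrafilter ℕ) (R T : ℕ → ℝ) (gg : Fin 4 → ℂ → ℂ) : Prop where
  sc : Scale (U : Filter ℕ) R T
  diff : ∀ i, Differentiable ℂ (gg i)
  sm : ∀ i, Sm (U : Filter ℕ) R T (deriv (gg i))
  sum : ∀ n, T n = ∑ i, mRe (gg i) (R n)

lemma ctx_exists (hGR : S_GR) (gg : Fin 4 → ℂ → ℂ) (hd : ∀ i, Differentiable ℂ (gg i))
    (hn : ∃ i, ∃ z, gg i z ≠ gg i 0) : ∃ (U : Ultrafilter ℕ) (R T : ℕ → ℝ), Ctx U R T gg := by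
  obtain ⟨R, T, hR, hT, hTt, hTs, hsm⟩ := hGR gg hd hn
  refine ⟨Filter.hyperfilter ℕ, R, T, ⟨hR, hT, hTt.mono_left Nat.hyperfilter_le_atTop⟩, hd, ?_,
    hTs⟩
  intro i
  have hdd : Differentiable ℂ (deriv (gg i)) := by
    intro z
    exact ((hd i).analyticAt z).deriv.differentiableAt
  refine ⟨hdd, fun l => ?_⟩
  have := (hsm i l).mono_left Nat.hyperfilter_le_atTop
  rw [iteratedDeriv_succ'] at this
  exact this

lemma neg_const {U : Filter ℕ} {R T : ℕ → ℝ} (hs : Scale U R T) (C : ℂ) :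
    Neg U R T (fun _ => C) := by
  unfold Neg mRe
  simp only [Real.circleAverage_const]
  exact hs.top.const_div_atTop _

lemma Ctx.not_all {U : Ultrafilter ℕ} {R T : ℕ → ℝ} {gg : Fin 4 → ℂ → ℂ} (h : Ctx U R T gg) :
    ∃ i, ¬ Neg (U : Filter ℕ) R T (gg i) := by
  by_contra hcon
  push Not at hcon
  have h1 : Tendsto (fun n => ∑ i, mRe (gg i) (R n) / T n) (U : Filter ℕ) (𝓝 (∑ _i : Fin 4, 0)) :=
    tendsto_finsetSum _ (fun i _ => hcon i)
  have h2 : (fun n => ∑ i, mRe (gg i) (R n) / T n) = fun _ => (1 : ℝ) := by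
    funext n
    rw [← Finset.sum_div, ← h.sum n, div_self (h.sc.pos n).ne']
  rw [h2] at h1
  have h3 := tendsto_nhds_unique h1 tendsto_const_nhds
  simp at h3

/-- A functional adapted to the context. -/
def PM (U : Ultrafilter ℕ) (R T : ℕ → ℝ) (gg : Fin 4 → ℂ → ℂ) (μ : Fin 4 → ℝ) : Prop :=
  ∀ k : Fin 4 → ℤ, Neg (U : Filter ℕ) R T (fun z => ∑ m, (k m : ℂ) * gg m z) →
    ∑ m, (k m : ℝ) * μ m = 0

lemma PM.zero {U : Ultrafilter ℕ} {R T : ℕ → ℝ} {gg : Fin 4 → ℂ → ℂ} {μ : Fin 4 → ℝ}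
    (h : PM U R T gg μ) {i : Fin 4} (hi : Neg (U : Filter ℕ) R T (gg i)) : μ i = 0 := by
  have h1 := h (Pi.single i 1) (by
    have : (fun z => ∑ m, (((Pi.single i 1 : Fin 4 → ℤ) m : ℤ) : ℂ) * gg m z) = gg i := by
      funext z
      rw [Finset.sum_eq_single i]
      · simp
      · intro b _ hb
        simp [Pi.single_eq_of_ne hb]
      · simp
    rw [this]; exact hi)
  rw [Finset.sum_eq_single i] at h1
  · simpa using h1
  · intro b _ hb
    simp [Pi.single_eq_of_ne hb]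
  · simp

lemma DP4 (hSM : S_SM) (hDP : S_DP) {U : Ultrafilter ℕ} {R T : ℕ → ℝ} {gg : Fin 4 → ℂ → ℂ}
    (hC : Ctx U R T gg) {μ : Fin 4 → ℝ} (hμ : PM U R T gg μ) (s : Finset ℕ) (c : ℕ → ℂ → ℂ)
    (hc : ∀ i ∈ s, Sm (U : Filter ℕ) R T (c i)) (e : ℕ → Fin 4 → ℕ)
    (hsum : ∀ z, ∑ i ∈ s, c i z * Complex.exp (∑ m, (e i m : ℂ) * gg m z) = 0) (t z : ℂ) :
    ∑ i ∈ s, c i z * Complex.exp (∑ m, (e i m : ℂ) * (t * μ m + gg m z)) = 0 := by
  have hd : ∀ i, Differentiable ℂ (fun z => ∑ m, (e i m : ℂ) * gg m z) := by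
    intro i
    apply Differentiable.fun_sum
    intro m _
    exact (hC.diff m).const_mul _
  obtain ⟨sconst, sadd, smul, -, -⟩ := hSM (U : Filter ℕ) R T hC.sc
  have hsmd : ∀ i, Sm (U : Filter ℕ) R T (deriv (fun z => ∑ m, (e i m : ℂ) * gg m z)) := by
    intro i
    have h1 : deriv (fun z => ∑ m, (e i m : ℂ) * gg m z) =
        fun z => ((e i 0 : ℂ) * deriv (gg 0) z + (e i 1 : ℂ) * deriv (gg 1) z) +
          ((e i 2 : ℂ) * deriv (gg 2) z + (e i 3 : ℂ) * deriv (gg 3) z) := by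
      funext z
      rw [deriv_fun_sum]
      · simp only [Fin.sum_univ_four]
        rw [deriv_const_mul _ (hC.diff 0 z), deriv_const_mul _ (hC.diff 1 z),
          deriv_const_mul _ (hC.diff 2 z), deriv_const_mul _ (hC.diff 3 z)]
        ring
      · intro m _
        exact ((hC.diff m z).const_mul _)
    rw [h1]
    exact sadd _ _ (sadd _ _ (smul _ _ (sconst _) (hC.sm 0)) (smul _ _ (sconst _) (hC.sm 1)))
      (sadd _ _ (smul _ _ (sconst _) (hC.sm 2)) (smul _ _ (sconst _) (hC.sm 3)))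
  have := hDP (U : Filter ℕ) R T hC.sc s c (fun i z => ∑ m, (e i m : ℂ) * gg m z)
    (fun i => ∑ m, (e i m : ℝ) * μ m) hc (fun i _ => hd i) (fun i _ => hsmd i) (by
      intro i _ j _ hneg
      have h2 := hμ (fun m => (e i m : ℤ) - (e j m : ℤ)) (by
        refine Eq.mp ?_ hneg
        congr 1
        funext z
        rw [← Finset.sum_sub_distrib]
        apply Finset.sum_congr rfl
        intro m _
        push_cast
        ring)
      have h3 : ∑ m, (e i m : ℝ) * μ m - ∑ m, (e j m : ℝ) * μ m = 0 := by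
        rw [← Finset.sum_sub_distrib, ← h2]
        apply Finset.sum_congr rfl
        intro m _
        push_cast
        ring
      linarith) hsum t z
  rw [← this]
  apply Finset.sum_congr rfl
  intro i _
  rw [mul_assoc, ← Complex.exp_add]
  congr 2
  push_cast
  rw [Finset.mul_sum, ← Finset.sum_add_distrib]
  apply Finset.sum_congr rfl
  intro m _
  ring

/-- coefficients of the expanded unit equation -/
def coef (P D : ℂ) : ℕ → ℂ
  | 0 => 1 | 1 => -2 | 2 => 1 | 3 => -1 | 4 => 2 | 5 => -1 | 6 => -1 | 7 => 1 | 8 => 1 | 9 => -1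
  | 10 => D + P | 11 => -1 * D | 12 => -1 * P | 13 => 1 | 14 => -1 | 15 => -1 | 16 => 1
  | 17 => -1 * (D + P) | 18 => D | 19 => P | _ => 0

/-- exponents of the expanded unit equation -/
def expo : ℕ → Fin 4 → ℕ
  | 0 => ![2, 1, 1, 0] | 1 => ![1, 1, 1, 0] | 2 => ![0, 1, 1, 0] | 3 => ![2, 1, 1, 1]
  | 4 => ![1, 1, 1, 1] | 5 => ![0, 1, 1, 1] | 6 => ![2, 1, 1, 0] | 7 => ![1, 1, 1, 0]
  | 8 => ![2, 2, 1, 0] | 9 => ![1, 2, 1, 0] | 10 => ![1, 0, 1, 0] | 11 => ![0, 0, 1, 0]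
  | 12 => ![1, 1, 1, 0] | 13 => ![2, 1, 0, 0] | 14 => ![1, 1, 0, 0] | 15 => ![2, 2, 0, 0]
  | 16 => ![1, 2, 0, 0] | 17 => ![1, 0, 0, 0] | 18 => ![0, 0, 0, 0] | 19 => ![1, 1, 0, 0]
  | _ => ![0, 0, 0, 0]

lemma exp_prod (e : Fin 4 → ℕ) (x : Fin 4 → ℂ) :
    Complex.exp (∑ m, (e m : ℂ) * x m) = Complex.exp (x 0) ^ e 0 * Complex.exp (x 1) ^ e 1 *
      Complex.exp (x 2) ^ e 2 * Complex.exp (x 3) ^ e 3 := by
  rw [Fin.sum_univ_four, Complex.exp_add, Complex.exp_add, Complex.exp_add,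
    Complex.exp_nat_mul, Complex.exp_nat_mul, Complex.exp_nat_mul, Complex.exp_nat_mul]

lemma expand (P D : ℂ) (x : Fin 4 → ℂ) :
    ∑ i ∈ Finset.range 20, coef P D i * Complex.exp (∑ m, (expo i m : ℂ) * x m) =
      Complex.exp (x 2) * (1 - Complex.exp (x 3)) * Complex.exp (x 1) * (Complex.exp (x 0) - 1) ^ 2 -
        (Complex.exp (x 2) - 1) * (Complex.exp (x 0) * Complex.exp (x 1) * (1 - Complex.exp (x 1)) *
            (Complex.exp (x 0) - 1) - D * (Complex.exp (x 0) - 1) -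
          P * Complex.exp (x 0) * (1 - Complex.exp (x 1))) := by
  simp only [exp_prod]
  simp only [Finset.sum_range_succ, Finset.sum_range_zero, coef, expo, Matrix.cons_val_zero,
    Matrix.cons_val_one, Matrix.cons_val]
  ring

/-- the functions of the context -/
def gq (p q : ℂ → ℂ) (c : ℂ) : Fin 4 → ℂ → ℂ :=
  ![p, q, fun z => p (z + c), fun z => q (z + c)]

/-- The unit equation. -/
def UEq (p q : ℂ → ℂ) (c : ℂ) : Prop :=
  ∀ z, Complex.exp (p (z + c)) * (1 - Complex.exp (q (z + c))) * Complex.exp (q z) *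
      (Complex.exp (p z) - 1) ^ 2 =
    (Complex.exp (p (z + c)) - 1) *
      (Complex.exp (p z) * Complex.exp (q z) * (1 - Complex.exp (q z)) * (Complex.exp (p z) - 1) -
        deriv q z * (Complex.exp (p z) - 1) -
        deriv p z * Complex.exp (p z) * (1 - Complex.exp (q z)))

lemma deformed (hSM : S_SM) (hDP : S_DP) {U : Ultrafilter ℕ} {R T : ℕ → ℝ} {p q : ℂ → ℂ} {c : ℂ}
    (hC : Ctx U R T (gq p q c)) (hE : UEq p q c) {μ : Fin 4 → ℝ} (hμ : PM U R T (gq p q c) μ)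
    (z : ℂ) : EQt (μ 0) (μ 1) (μ 2) (μ 3) (p z) (q z) (p (z + c)) (q (z + c)) (deriv p z)
      (deriv q z) := by
  obtain ⟨sconst, sadd, smul, -, -⟩ := hSM (U : Filter ℕ) R T hC.sc
  have hP : Sm (U : Filter ℕ) R T (deriv p) := hC.sm 0
  have hD : Sm (U : Filter ℕ) R T (deriv q) := hC.sm 1
  intro t
  have h1 := DP4 hSM hDP hC hμ (Finset.range 20) (fun i z => coef (deriv p z) (deriv q z) i)
    (by
      intro i hi
      rw [Finset.mem_range] at hi
      interval_cases i <;> simp only [coef]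
      all_goals first
        | exact sconst _
        | exact hP
        | exact hD
        | exact sadd _ _ hD hP
        | exact smul _ _ (sconst _) hP
        | exact smul _ _ (sconst _) hD
        | exact smul _ _ (sconst _) (sadd _ _ hD hP))
    expo (by
      intro z
      rw [expand]
      have := hE z
      simp only [gq, Matrix.cons_val_zero, Matrix.cons_val_one, Matrix.cons_val]
      rw [this]; ring) t z
  rw [expand] at h1
  simp only [gq, Matrix.cons_val_zero, Matrix.cons_val_one, Matrix.cons_val] at h1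
  linear_combination h1

end Pool.Agent.R876.SV
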