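import Pool.Agent.R876.SV.CoreC

/-!
Project SV, CORE part D: stages 1 and 2 and the final theorem.
-/

namespace Pool.Agent.R876.SV

open Filter Topology

section
variable {U : Ultrafilter ℕ} {R T : ℕ → ℝ} {p q : ℂ → ℂ} {c : ℂ}

lemma int_unique {a b : ℝ} (ha : a ≠ 0) {k l : ℤ} (hk : b = k * a) (hl : b = l * a) : k = l := by
  have : (k : ℝ) * a = l * a := by rw [← hk, hl]
  exact_mod_cast mul_right_cancel₀ ha this

lemma shiftd {f : ℂ → ℂ} (hf : Differentiable ℂ f) (c : ℂ) : Differentiable ℂ fun z => f (z + c) :=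
  hf.comp (differentiable_id.add_const c)

lemma stage1 (hSM : S_SM) (hDP : S_DP) (hFN : S_FN) (hC : Ctx U R T (gq p q c))
    (hE : UEq p q c) (hv : ∃ z, Complex.exp (p z) ≠ 1) :
    ∃ k : ℤ, ∀ z, Complex.exp (q z - k * p z) = 1 := by
  have hp : Differentiable ℂ p := hC.diff 0
  have hq : Differentiable ℂ q := hC.diff 1
  have hp' : Differentiable ℂ fun z => p (z + c) := shiftd hp c
  have hq' : Differentiable ℂ fun z => q (z + c) := shiftd hq c
  have g1 : ∀ᶠ x in 𝓝[≠] (0 : ℂ), Complex.exp (p x) - 1 ≠ 0 :=
    gen (h := fun z => Complex.exp (p z) - 1) (hp.cexp.sub_const 1)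
      (by obtain ⟨z, hz⟩ := hv; exact ⟨z, sub_ne_zero.2 hz⟩) 0
  have g2 : ∀ᶠ x in 𝓝[≠] (0 : ℂ), Complex.exp (p (x + c)) - 1 ≠ 0 :=
    gen (h := fun z => Complex.exp (p (z + c)) - 1) (hp'.cexp.sub_const 1)
      (by obtain ⟨z, hz⟩ := hv; exact ⟨z - c, by simpa [sub_ne_zero] using hz⟩) 0
  have FN := hFN U R T hC.sc (gq p q c) hC.diff hC.sum
  by_cases n0 : Neg (U : Filter ℕ) R T (gq p q c 0)
  · by_cases n2 : Neg (U : Filter ℕ) R T (gq p q c 2)
    · exfalso
      by_cases n1 : Neg (U : Filter ℕ) R T (gq p q c 1)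
      · -- only q(z+c) is not small
        have n3 : ¬ Neg (U : Filter ℕ) R T (gq p q c 3) := by
          obtain ⟨i, hi⟩ := hC.not_all
          fin_cases i
          · exact absurd n0 hi
          · exact absurd n1 hi
          · exact absurd n2 hi
          · exact hi
        obtain ⟨μ, h3, -, hμ⟩ := FN 3 3 n3 n3
        have hμ' : PM U R T (gq p q c) μ := hμ
        obtain ⟨z, hz⟩ := hv
        have h := deformed hSM hDP hC hE hμ' z
        rw [hμ'.zero n0, hμ'.zero n1, hμ'.zero n2] at h
        exact C2 h3 hz h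
      · obtain ⟨μ, h1, -, hμ⟩ := FN 1 1 n1 n1
        have hμ' : PM U R T (gq p q c) μ := hμ
        have e0 := hμ'.zero n0
        have e2 := hμ'.zero n2
        have hzero : ∀ z, deriv q z * (Complex.exp (p z) - 1) + deriv p z * Complex.exp (p z) = 0 := by
          have hd : Differentiable ℂ fun z =>
              deriv q z * (Complex.exp (p z) - 1) + deriv p z * Complex.exp (p z) := by
            exact ((hC.sm 1).1.mul (hp.cexp.sub_const 1)).add ((hC.sm 0).1.mul hp.cexp)
          refine ident (g := fun _ => 0) hd (differentiable_const _) (z0 := 0) ?_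
          filter_upwards [g1, g2] with z hz1 hz2
          have h := deformed hSM hDP hC hE hμ' z
          rw [e0, e2] at h
          exact C1 h1 (sub_ne_zero.1 hz1) (sub_ne_zero.1 hz2) h
        -- exp q * (exp p - 1) is constant
        have hconst : ∀ z, Complex.exp (q z) * (Complex.exp (p z) - 1) =
            Complex.exp (q 0) * (Complex.exp (p 0) - 1) := by
          intro z
          have hd : Differentiable ℂ fun z => Complex.exp (q z) * (Complex.exp (p z) - 1) :=
            hq.cexp.mul (hp.cexp.sub_const 1)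
          have hder : ∀ z, deriv (fun z => Complex.exp (q z) * (Complex.exp (p z) - 1)) z = 0 := by
            intro z
            have h1 : HasDerivAt (fun z => Complex.exp (q z) * (Complex.exp (p z) - 1))
                (Complex.exp (q z) * deriv q z * (Complex.exp (p z) - 1) +
                  Complex.exp (q z) * (Complex.exp (p z) * deriv p z)) z :=
              ((hq z).hasDerivAt.cexp).mul (((hp z).hasDerivAt.cexp).sub_const 1)
            rw [h1.deriv]
            linear_combination Complex.exp (q z) * hzero z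
          exact is_const_of_deriv_eq_zero hd hder z 0
        set C0 := Complex.exp (q 0) * (Complex.exp (p 0) - 1) with hC0
        have hC0ne : C0 ≠ 0 := by
          obtain ⟨z, hz⟩ := hv
          rw [← hconst z]
          exact mul_ne_zero (Complex.exp_ne_zero _) (sub_ne_zero.2 hz)
        obtain ⟨sconst, sadd, smul, -, -⟩ := hSM (U : Filter ℕ) R T hC.sc
        let cc : ℕ → ℂ → ℂ := fun i => match i with
          | 0 => fun _ => 1
          | 1 => fun _ => -1
          | _ => fun _ => -C0
        let ee : ℕ → Fin 4 → ℕ := fun i => match i with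
          | 0 => ![1, 1, 0, 0]
          | 1 => ![0, 1, 0, 0]
          | _ => ![0, 0, 0, 0]
        have key := DP4 hSM hDP hC hμ' (Finset.range 3) cc
          (by
            intro i hi
            rw [Finset.mem_range] at hi
            interval_cases i <;> exact sconst _)
          ee (by
            intro z
            simp only [exp_prod]
            simp only [Finset.sum_range_succ, Finset.sum_range_zero, cc, ee, gq,
              Matrix.cons_val_zero, Matrix.cons_val_one, Matrix.cons_val]
            have := hconst z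
            linear_combination this)
        have key2 : ∀ t : ℂ, Complex.exp (t * μ 1) = 1 := by
          intro t
          have h := key t 0
          simp only [exp_prod] at h
          simp only [Finset.sum_range_succ, Finset.sum_range_zero, cc, ee, gq,
              Matrix.cons_val_zero, Matrix.cons_val_one, Matrix.cons_val, e0] at h
          simp only [Complex.ofReal_zero, mul_zero, zero_add, Complex.exp_add] at h
          have h2 : C0 * (Complex.exp (t * μ 1) - 1) = 0 := by
            have h3 : Complex.exp (q 0) * (Complex.exp (p 0) - 1) = C0 := hC0.symm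
            linear_combination h - (Complex.exp (t * μ 1)) * h3
          rcases mul_eq_zero.1 h2 with h | h
          · exact absurd h hC0ne
          · linear_combination h
        have h5 := key2 (Real.pi * Complex.I / μ 1)
        have hμ1 : (μ 1 : ℂ) ≠ 0 := by exact_mod_cast h1
        rw [div_mul_cancel₀ _ hμ1, Complex.exp_pi_mul_I] at h5
        norm_num at h5
    · -- p small, p(z+c) not small
      obtain ⟨μ, h2, -, hμ⟩ := FN 2 2 n2 n2
      have hμ' : PM U R T (gq p q c) μ := hμ
      have e0 := hμ'.zero n0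
      have hloc : ∀ z, Complex.exp (p z) - 1 ≠ 0 →
          ∃ k : ℤ, μ 3 = k * μ 2 ∧ Complex.exp (q (z + c) - k * p (z + c)) = 1 := by
        intro z hz
        have h := deformed hSM hDP hC hE hμ' z
        rw [e0] at h
        exact A2 h2 (fun n => B1 h2 (sub_ne_zero.1 hz) h n)
      obtain ⟨z1, hz1⟩ := hv
      obtain ⟨k, hk, -⟩ := hloc z1 (sub_ne_zero.2 hz1)
      refine ⟨k, ?_⟩
      have hall : ∀ z, Complex.exp (q (z + c) - k * p (z + c)) = 1 := by
        refine ident (f := fun z => Complex.exp (q (z + c) - k * p (z + c))) (g := fun _ => 1)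
          ((hq'.sub (hp'.const_mul _)).cexp) (differentiable_const _) (z0 := 0) ?_
        filter_upwards [g1] with z hz
        obtain ⟨l, hl, hle⟩ := hloc z hz
        have : k = l := int_unique h2 hk hl
        rw [this]; exact hle
      intro z
      have := hall (z - c)
      simpa using this
  · -- p not small
    have hμex : ∃ μ : Fin 4 → ℝ, μ 0 ≠ 0 ∧ PM U R T (gq p q c) μ ∧
        (μ 2 ≠ 0 ∨ Neg (U : Filter ℕ) R T (gq p q c 2)) := by
      by_cases n2 : Neg (U : Filter ℕ) R T (gq p q c 2)
      · obtain ⟨μ, h0, -, hμ⟩ := FN 0 0 n0 n0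
        exact ⟨μ, h0, hμ, Or.inr n2⟩
      · obtain ⟨μ, h0, h2, hμ⟩ := FN 0 2 n0 n2
        exact ⟨μ, h0, hμ, Or.inl h2⟩
    obtain ⟨μ, h0, hμ', h2⟩ := hμex
    have hdp : ∃ z, deriv p z ≠ 0 := by
      by_contra hcon
      push Not at hcon
      apply n0
      have : gq p q c 0 = fun _ => p 0 := by
        funext z
        exact is_const_of_deriv_eq_zero hp hcon z 0
      rw [this]
      exact neg_const hC.sc _
    have g3 : ∀ᶠ x in 𝓝[≠] (0 : ℂ), deriv p x ≠ 0 := gen (hC.sm 0).1 hdp 0
    have hloc : ∀ z, Complex.exp (p (z + c)) - 1 ≠ 0 → deriv p z ≠ 0 →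
        ∃ k : ℤ, μ 1 = k * μ 0 ∧ Complex.exp (q z - k * p z) = 1 := by
      intro z hz hz'
      have h := deformed hSM hDP hC hE hμ' z
      exact A2 h0 (fun n => A1 h0 hz' (Or.inr (sub_ne_zero.1 hz)) h n)
    obtain ⟨z1, hz1⟩ := (g2.and g3).exists
    obtain ⟨k, hk, -⟩ := hloc z1 hz1.1 hz1.2
    refine ⟨k, ?_⟩
    refine ident (f := fun z => Complex.exp (q z - k * p z)) (g := fun _ => 1)
      ((hq.sub (hp.const_mul _)).cexp) (differentiable_const _) (z0 := 0) ?_
    filter_upwards [g2, g3] with z hz hz'
    obtain ⟨l, hl, hle⟩ := hloc z hz hz'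
    have : k = l := int_unique h0 hk hl
    rw [this]; exact hle

lemma stage2 (hSM : S_SM) (hDP : S_DP) (hFN : S_FN) (hC : Ctx U R T (gq p q c))
    (hE : UEq p q c) (hv : ∃ z, Complex.exp (p z) ≠ 1) {k : ℕ} (hk : 1 ≤ k)
    (hw : ∀ z, Complex.exp (q z - k * p z) = 1) : False := by
  have hp : Differentiable ℂ p := hC.diff 0
  have hq : Differentiable ℂ q := hC.diff 1
  have hp' : Differentiable ℂ fun z => p (z + c) := shiftd hp c
  have hq' : Differentiable ℂ fun z => q (z + c) := shiftd hq c
  have hdq : ∀ z, deriv q z = k * deriv p z := by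
    intro z
    have h1 : HasDerivAt (fun z => Complex.exp (q z - k * p z))
        (Complex.exp (q z - k * p z) * (deriv q z - k * deriv p z)) z :=
      ((hq z).hasDerivAt.sub ((hp z).hasDerivAt.const_mul _)).cexp
    have h2 : (fun z => Complex.exp (q z - k * p z)) = fun _ => 1 := by
      funext z; exact hw z
    rw [h2] at h1
    have h3 := h1.unique (hasDerivAt_const z (1 : ℂ))
    rw [hw z] at h3
    linear_combination h3
  have hcst : ∀ z, q z - k * p z = q 0 - k * p 0 := by
    intro z
    have hd : Differentiable ℂ fun z => q z - k * p z := hq.sub (hp.const_mul _)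
    refine is_const_of_deriv_eq_zero hd (fun z => ?_) z 0
    have h1 : HasDerivAt (fun z => q z - k * p z) (deriv q z - k * deriv p z) z :=
      (hq z).hasDerivAt.sub ((hp z).hasDerivAt.const_mul _)
    rw [h1.deriv, hdq z]; ring
  have hexp : ∀ z, Complex.exp (q z) = Complex.exp (p z) ^ k := by
    intro z
    rw [← Complex.exp_nat_mul]
    have := hw z
    rw [Complex.exp_sub, div_eq_one_iff_eq (Complex.exp_ne_zero _)] at this
    exact this
  have FN := hFN U R T hC.sc (gq p q c) hC.diff hC.sum
  have r1 : ∀ μ, PM U R T (gq p q c) μ → μ 1 = k * μ 0 := by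
    intro μ hμ
    have h := hμ ![-(k : ℤ), 1, 0, 0] (by
      have : (fun z => ∑ m, ((![-(k : ℤ), 1, 0, 0] m : ℤ) : ℂ) * gq p q c m z) =
          fun _ => q 0 - k * p 0 := by
        funext z
        rw [← hcst z]
        simp only [Fin.sum_univ_four, gq, Matrix.cons_val_zero, Matrix.cons_val_one,
          Matrix.cons_val]
        push_cast
        ring
      rw [this]
      exact neg_const hC.sc _)
    simp only [Fin.sum_univ_four, Matrix.cons_val_zero, Matrix.cons_val_one,
          Matrix.cons_val] at h
    push_cast at h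
    linarith
  have r2 : ∀ μ, PM U R T (gq p q c) μ → μ 3 = k * μ 2 := by
    intro μ hμ
    have h := hμ ![0, 0, -(k : ℤ), 1] (by
      have : (fun z => ∑ m, ((![0, 0, -(k : ℤ), 1] m : ℤ) : ℂ) * gq p q c m z) =
          fun _ => q 0 - k * p 0 := by
        funext z
        rw [← hcst (z + c)]
        simp only [Fin.sum_univ_four, gq, Matrix.cons_val_zero, Matrix.cons_val_one,
          Matrix.cons_val]
        push_cast
        ring
      rw [this]
      exact neg_const hC.sc _)
    simp only [Fin.sum_univ_four, Matrix.cons_val_zero, Matrix.cons_val_one,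
          Matrix.cons_val] at h
    push_cast at h
    linarith
  have hK : ∀ μ, PM U R T (gq p q c) μ → ∀ z,
      EQK k (μ 0) (μ 2) (p z) (p (z + c)) (deriv p z) := by
    intro μ hμ z
    have h := deformed hSM hDP hC hE hμ z
    rw [r1 μ hμ, r2 μ hμ, hdq z] at h
    exact h.toEQK (hexp z) (hexp (z + c))
  have g2 : ∀ᶠ x in 𝓝[≠] (0 : ℂ), Complex.exp (p (x + c)) - 1 ≠ 0 :=
    gen (h := fun z => Complex.exp (p (z + c)) - 1) (hp'.cexp.sub_const 1)
      (by obtain ⟨z, hz⟩ := hv; exact ⟨z - c, by simpa [sub_ne_zero] using hz⟩) 0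
  by_cases n0 : Neg (U : Filter ℕ) R T (gq p q c 0)
  · by_cases n2 : Neg (U : Filter ℕ) R T (gq p q c 2)
    · obtain ⟨i, hi⟩ := hC.not_all
      obtain ⟨μ, h1, -, hμ⟩ := FN i i hi hi
      have hμ' : PM U R T (gq p q c) μ := hμ
      have e0 := hμ'.zero n0
      have e2 := hμ'.zero n2
      have e1 := r1 μ hμ'
      have e3 := r2 μ hμ'
      rw [e0, mul_zero] at e1
      rw [e2, mul_zero] at e3
      fin_cases i
      · exact h1 e0
      · exact h1 e1
      · exact h1 e2
      · exact h1 e3
    · obtain ⟨μ, h1, -, hμ⟩ := FN 2 2 n2 n2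
      have hμ' : PM U R T (gq p q c) μ := hμ
      obtain ⟨z, hz⟩ := hv
      have h := hK μ hμ' z
      rw [hμ'.zero n0] at h
      exact KL2 hk h1 hz h
  · obtain ⟨μ, h1, -, hμ⟩ := FN 0 0 n0 n0
    have hμ' : PM U R T (gq p q c) μ := hμ
    have hdp : ∃ z, deriv p z ≠ 0 := by
      by_contra hcon
      push Not at hcon
      apply n0
      have : gq p q c 0 = fun _ => p 0 := by
        funext z
        exact is_const_of_deriv_eq_zero hp hcon z 0
      rw [this]
      exact neg_const hC.sc _
    have g3 : ∀ᶠ x in 𝓝[≠] (0 : ℂ), deriv p x ≠ 0 := gen (hC.sm 0).1 hdp 0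
    obtain ⟨z, hz⟩ := (g2.and g3).exists
    exact KL1 hk h1 hz.2 (sub_ne_zero.1 hz.1) (hK μ hμ' z)

end

/-- derivation of the unit equation -/
lemma ueq_of_shared {f A B : ℂ → ℂ} {c a b : ℂ} (hf : Differentiable ℂ f)
    (hA : Differentiable ℂ A) (hB : Differentiable ℂ B) (hab : a ≠ b)
    (h1 : ∀ z, deriv f z - a = Complex.exp (A z) * (f (z + c) - f z - a))
    (h2 : ∀ z, deriv f z - b = Complex.exp (B z) * (f (z + c) - f z - b)) :
    UEq (fun z => A z - B z) B c := by
  have hd : (b - a) ≠ 0 := sub_ne_zero.2 hab.symm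
  intro z
  have hAB : ∀ z, Complex.exp (A z) = Complex.exp (A z - B z) * Complex.exp (B z) := by
    intro z
    rw [← Complex.exp_add, sub_add_cancel]
  -- (i)
  have hi : ∀ z, (f (z + c) - f z - a) * Complex.exp (B z) * (Complex.exp (A z - B z) - 1) =
      (b - a) * (1 - Complex.exp (B z)) := by
    intro z
    have e1 := h1 z
    have e2 := h2 z
    rw [hAB z] at e1
    linear_combination e2 - e1
  -- (ii) derivative
  have hder1 : ∀ z, HasDerivAt (fun z => (f (z + c) - f z - a)) (deriv f (z + c) - deriv f z) z := by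
    intro z
    have e1 : HasDerivAt (fun z => f (z + c)) (deriv f (z + c)) z := by
      have := (hf (z + c)).hasDerivAt
      exact this.comp_add_const z c
    exact (e1.sub (hf z).hasDerivAt).sub_const a
  have hp : ∀ z, HasDerivAt (fun z => A z - B z) (deriv A z - deriv B z) z := fun z =>
    (hA z).hasDerivAt.sub (hB z).hasDerivAt
  have hdp : ∀ z, deriv (fun z => A z - B z) z = deriv A z - deriv B z := fun z => (hp z).deriv
  have hii : ∀ z, ((deriv f (z + c) - deriv f z) * Complex.exp (B z) +
      (f (z + c) - f z - a) * (Complex.exp (B z) * deriv B z)) * (Complex.exp (A z - B z) - 1) +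
      (f (z + c) - f z - a) * Complex.exp (B z) *
        (Complex.exp (A z - B z) * (deriv A z - deriv B z)) =
      (b - a) * (- (Complex.exp (B z) * deriv B z)) := by
    intro z
    have e1 : HasDerivAt (fun z => (f (z + c) - f z - a) * Complex.exp (B z) *
        (Complex.exp (A z - B z) - 1)) (((deriv f (z + c) - deriv f z) * Complex.exp (B z) +
      (f (z + c) - f z - a) * (Complex.exp (B z) * deriv B z)) * (Complex.exp (A z - B z) - 1) +
      (f (z + c) - f z - a) * Complex.exp (B z) *
        (Complex.exp (A z - B z) * (deriv A z - deriv B z))) z :=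
      ((hder1 z).mul ((hB z).hasDerivAt.cexp)).mul ((hp z).cexp.sub_const 1)
    have e2 : HasDerivAt (fun z => (b - a) * (1 - Complex.exp (B z)))
        ((b - a) * (- (Complex.exp (B z) * deriv B z))) z :=
      (((hB z).hasDerivAt.cexp).const_sub 1).const_mul (b - a)
    have e3 : (fun z => (f (z + c) - f z - a) * Complex.exp (B z) *
        (Complex.exp (A z - B z) - 1)) = fun z => (b - a) * (1 - Complex.exp (B z)) := by
      funext z; exact hi z
    rw [e3] at e1
    exact e1.unique e2
  have i1 := hi z
  have i2 := hi (z + c)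
  have i3 := hii z
  have e1 := h1 z
  have e2 := h1 (z + c)
  rw [hAB z] at e1
  rw [hAB (z + c)] at e2
  rw [hdp z]
  set v := Complex.exp (A z - B z)
  set w := Complex.exp (B z)
  set V := Complex.exp (A (z + c) - B (z + c))
  set W := Complex.exp (B (z + c))
  set N := f (z + c) - f z - a
  set M := f (z + c + c) - f (z + c) - a
  set F := deriv f z
  set F' := deriv f (z + c)
  apply mul_left_cancel₀ hd
  -- i1 : N * w * (v - 1) = d * (1 - w); i2 : M * W * (V - 1) = d * (1 - W)
  -- e1 : F - a = v * w * N; e2 : F' - a = V * W * M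
  linear_combination (-(V * w * (v - 1) ^ 2)) * i2 - (w * (v - 1) ^ 2 * (V - 1)) * e2 +
    ((V - 1) * w * (v - 1) ^ 2) * e1 +
    ((V - 1) * (v * w * (v - 1)) - (V - 1) * ((deriv A z - deriv B z) * v) -
      (V - 1) * (v - 1) * deriv B z) * i1 + ((V - 1) * (v - 1)) * i3

end Pool.Agent.R876.SV
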