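import Pool.Agent.R876.SV.CoreD

/-!
Project SV, CORE part E: the theorem for entire functions.
-/

namespace Pool.Agent.R876.SV

open Filter Topology

/-- Common hypotheses after taking logarithms. -/
structure Shared (f A B : ℂ → ℂ) (c a b : ℂ) : Prop where
  hf : Differentiable ℂ f
  hA : Differentiable ℂ A
  hB : Differentiable ℂ B
  hab : a ≠ b
  hn : ∃ z, deriv f z ≠ deriv f 0
  h1 : ∀ z, deriv f z - a = Complex.exp (A z) * (f (z + c) - f z - a)
  h2 : ∀ z, deriv f z - b = Complex.exp (B z) * (f (z + c) - f z - b)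
  hne : ∃ z, deriv f z ≠ f (z + c) - f z

lemma Shared.swap {f A B : ℂ → ℂ} {c a b : ℂ} (h : Shared f A B c a b) : Shared f B A c b a :=
  ⟨h.hf, h.hB, h.hA, h.hab.symm, h.hn, h.h2, h.h1, h.hne⟩

lemma Shared.A_ne {f A B : ℂ → ℂ} {c a b : ℂ} (h : Shared f A B c a b) :
    ∃ z, Complex.exp (A z) ≠ 1 := by
  by_contra hcon
  push Not at hcon
  obtain ⟨z, hz⟩ := h.hne
  have := h.h1 z
  rw [hcon z] at this
  exact hz (by linear_combination this)

lemma Shared.v_ne {f A B : ℂ → ℂ} {c a b : ℂ} (h : Shared f A B c a b) :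
    ∃ z, Complex.exp (A z - B z) ≠ 1 := by
  by_contra hcon
  push Not at hcon
  obtain ⟨z, hz⟩ := h.A_ne
  have e1 := h.h1 z
  have e2 := h.h2 z
  have e3 : Complex.exp (A z) = Complex.exp (B z) := by
    have := hcon z
    rw [Complex.exp_sub, div_eq_one_iff_eq (Complex.exp_ne_zero _)] at this
    exact this
  rw [← e3] at e2
  have h4 : (b - a) * (Complex.exp (A z) - 1) = 0 := by linear_combination e2 - e1
  rcases mul_eq_zero.1 h4 with h5 | h5
  · exact h.hab (by linear_combination -h5)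
  · exact hz (by linear_combination h5)

lemma Shared.ueq {f A B : ℂ → ℂ} {c a b : ℂ} (h : Shared f A B c a b) :
    UEq (fun z => A z - B z) B c :=
  ueq_of_shared h.hf h.hA h.hB h.hab h.h1 h.h2

lemma Shared.nonconst {f A B : ℂ → ℂ} {c a b : ℂ} (h : Shared f A B c a b) :
    ∃ i, ∃ z, gq (fun z => A z - B z) B c i z ≠ gq (fun z => A z - B z) B c i 0 := by
  by_contra hcon
  push Not at hcon
  have hp : ∀ z, A z - B z = A 0 - B 0 := fun z => hcon 0 z
  have hq : ∀ z, B z = B 0 := fun z => hcon 1 z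
  have hA0 : ∀ z, A z = A 0 := by
    intro z
    have := hp z
    rw [hq z] at this
    linear_combination this
  obtain ⟨z0, hz0⟩ := h.v_ne
  rw [hp z0] at hz0
  have key : ∀ z, (f (z + c) - f z - a) * (Complex.exp (A 0) - Complex.exp (B 0)) =
      (b - a) * (1 - Complex.exp (B 0)) := by
    intro z
    have e1 := h.h1 z
    have e2 := h.h2 z
    rw [hA0 z] at e1
    rw [hq z] at e2
    linear_combination e2 - e1
  have hne : Complex.exp (A 0) - Complex.exp (B 0) ≠ 0 := by
    intro h0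
    apply hz0
    rw [Complex.exp_sub, div_eq_one_iff_eq (Complex.exp_ne_zero _)]
    linear_combination h0
  obtain ⟨z, hz⟩ := h.hn
  apply hz
  have k1 := key z
  have k2 := key 0
  have k3 : f (z + c) - f z - a = f (0 + c) - f 0 - a :=
    mul_right_cancel₀ hne (by rw [k1, k2])
  have e1 := h.h1 z
  have e2 := h.h1 0
  rw [hA0 z, k3] at e1
  linear_combination e1 - e2

lemma Shared.stage1 (hGR : S_GR) (hSM : S_SM) (hDP : S_DP) (hFN : S_FN)
    {f A B : ℂ → ℂ} {c a b : ℂ} (h : Shared f A B c a b) :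
    ∃ k : ℤ, ∀ z, Complex.exp (B z - k * (A z - B z)) = 1 := by
  have hd : ∀ i, Differentiable ℂ (gq (fun z => A z - B z) B c i) := by
    intro i
    fin_cases i
    · exact h.hA.sub h.hB
    · exact h.hB
    · exact shiftd (h.hA.sub h.hB) c
    · exact shiftd h.hB c
  obtain ⟨U, R, T, hC⟩ := ctx_exists hGR _ hd h.nonconst
  exact Pool.Agent.R876.SV.stage1 hSM hDP hFN hC h.ueq h.v_ne

lemma Shared.stage2 (hGR : S_GR) (hSM : S_SM) (hDP : S_DP) (hFN : S_FN)
    {f A B : ℂ → ℂ} {c a b : ℂ} (h : Shared f A B c a b) {k : ℕ} (hk : 1 ≤ k)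
    (hw : ∀ z, Complex.exp (B z - k * (A z - B z)) = 1) : False := by
  have hd : ∀ i, Differentiable ℂ (gq (fun z => A z - B z) B c i) := by
    intro i
    fin_cases i
    · exact h.hA.sub h.hB
    · exact h.hB
    · exact shiftd (h.hA.sub h.hB) c
    · exact shiftd h.hB c
  obtain ⟨U, R, T, hC⟩ := ctx_exists hGR _ hd h.nonconst
  exact Pool.Agent.R876.SV.stage2 hSM hDP hFN hC h.ueq h.v_ne hk hw

theorem CORE (hGR : S_GR) (hSM : S_SM) (hDP : S_DP) (hFN : S_FN) : S_CORE := by
  intro f A B c a b hf hA hB hc hab hn h1 h2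
  by_contra hcon
  push Not at hcon
  have h : Shared f A B c a b := ⟨hf, hA, hB, hab, hn, h1, h2, hcon⟩
  obtain ⟨k, hk⟩ := h.stage1 hGR hSM hDP hFN
  rcases lt_trichotomy k 0 with hk0 | hk0 | hk0
  · -- k < 0 : swap
    obtain ⟨z, hz⟩ := h.A_ne
    have hA1 : ∀ z, Complex.exp (A z - ((-(k + 1) : ℤ) : ℂ) * (B z - A z)) = 1 := by
      intro z
      rw [← hk z]
      congr 1
      push_cast
      ring
    have hk1 : k ≠ -1 := by
      rintro rfl
      apply hz
      have := hA1 z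
      simpa using this
    obtain ⟨l, hl⟩ : ∃ l : ℕ, (l : ℤ) = -(k + 1) := ⟨(-(k + 1)).toNat, by
      rw [Int.toNat_of_nonneg]; omega⟩
    have hl1 : 1 ≤ l := by omega
    refine h.swap.stage2 hGR hSM hDP hFN hl1 (fun z => ?_)
    have := hA1 z
    rw [← hl] at this
    exact_mod_cast this
  · subst hk0
    obtain ⟨z, hz⟩ := h.swap.A_ne
    apply hz
    have := hk z
    simpa using this
  · obtain ⟨l, hl⟩ : ∃ l : ℕ, (l : ℤ) = k := ⟨k.toNat, by
      rw [Int.toNat_of_nonneg]; omega⟩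
    have hl1 : 1 ≤ l := by omega
    refine h.stage2 hGR hSM hDP hFN hl1 (fun z => ?_)
    have := hk z
    rw [← hl] at this
    exact_mod_cast this

end Pool.Agent.R876.SV
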