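import Pool.Agent.R876.SV.Stm

/-!
Project SV (helper876), MP_6db049_an: piece DP, the deformation principle.
-/

set_option autoImplicit false

namespace Pool.Agent.R876.SV

open Filter Topology Real

open Classical in
theorem DP_merge (s : Finset ℕ) (c g : ℕ → ℂ → ℂ) (w : ℕ → ℂ) {i j : ℕ} (hi : i ∈ s) (hj : j ∈ s)
    (hij : i ≠ j) (hw : w i = w j) (z : ℂ) :
    ∑ l ∈ s.erase i, (Function.update c j
      (fun z => c j z + c i z * Complex.exp (g i z - g j z))) l z * w l * Complex.exp (g l z) =
    ∑ l ∈ s, c l z * w l * Complex.exp (g l z) := by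
  have hj' : j ∈ s.erase i := Finset.mem_erase.2 ⟨hij.symm, hj⟩
  rw [← Finset.add_sum_erase s _ hi, ← Finset.add_sum_erase (s.erase i) _ hj',
    ← Finset.add_sum_erase (s.erase i) (fun l => c l z * w l * Complex.exp (g l z)) hj']
  have h1 : ∑ l ∈ (s.erase i).erase j, (Function.update c j
      (fun z => c j z + c i z * Complex.exp (g i z - g j z))) l z * w l * Complex.exp (g l z) =
      ∑ l ∈ (s.erase i).erase j, c l z * w l * Complex.exp (g l z) := by
    refine Finset.sum_congr rfl fun l hl => ?_
    rw [Function.update_of_ne (Finset.ne_of_mem_erase hl)]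
  rw [h1, Function.update_self, hw]
  have h2 : Complex.exp (g i z) = Complex.exp (g i z - g j z) * Complex.exp (g j z) := by
    rw [← Complex.exp_add]
    congr 1
    ring
  rw [h2]
  ring

theorem DP (hSM : S_SM) (hBW : S_BW) : S_DP := by
  classical
  intro U R T hU
  obtain ⟨hconst, hadd, hmul, _, hexp⟩ := hSM U R T hU
  have main : ∀ (n : ℕ) (s : Finset ℕ), s.card ≤ n → ∀ (c g : ℕ → ℂ → ℂ) (μ : ℕ → ℝ),
      (∀ i ∈ s, Sm U R T (c i)) →
      (∀ i ∈ s, Differentiable ℂ (g i)) → (∀ i ∈ s, Sm U R T (deriv (g i))) →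
      (∀ i ∈ s, ∀ j ∈ s, Neg U R T (fun z => g i z - g j z) → μ i = μ j) →
      (∀ z, ∑ i ∈ s, c i z * Complex.exp (g i z) = 0) →
      ∀ t z : ℂ, ∑ i ∈ s, c i z * Complex.exp (t * (μ i : ℂ)) * Complex.exp (g i z) = 0 := by
    intro n
    induction n with
    | zero =>
      intro s hs c g μ _ _ _ _ _ t z
      rw [Finset.card_eq_zero.1 (Nat.le_zero.1 hs), Finset.sum_empty]
    | succ n ih =>
      intro s hs c g μ hc hg hg' hμ hrel t z
      set s' := s.filter (fun i => ∃ z, c i z ≠ 0) with hs'
      have hsub : s' ⊆ s := Finset.filter_subset _ _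
      have hzero : ∀ i ∈ s, i ∉ s' → ∀ z, c i z = 0 := by
        intro i hi hi' z
        by_contra hne
        exact hi' (Finset.mem_filter.2 ⟨hi, z, hne⟩)
      have hsum : ∀ (w : ℕ → ℂ) (z : ℂ), ∑ i ∈ s, c i z * w i * Complex.exp (g i z) =
          ∑ i ∈ s', c i z * w i * Complex.exp (g i z) := by
        intro w z
        symm
        refine Finset.sum_subset hsub fun i hi hi' => ?_
        rw [hzero i hi hi' z, zero_mul, zero_mul]
      rw [hsum (fun i => Complex.exp (t * (μ i : ℂ)))]
      rcases s'.eq_empty_or_nonempty with he | hne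
      · rw [he, Finset.sum_empty]
      have hrel' : ∀ z, ∑ i ∈ s', c i z * Complex.exp (g i z) = 0 := by
        intro z
        have h1 := hsum (fun _ => 1) z
        simp only [mul_one] at h1
        rw [← h1]
        exact hrel z
      obtain ⟨i, hi, j, hj, hij, hneg⟩ := hBW U R T hU s' c g hne (fun i hi => hc i (hsub hi))
        (fun i hi => (Finset.mem_filter.1 hi).2) (fun i hi => hg i (hsub hi))
        (fun i hi => hg' i (hsub hi)) hrel'
      have hμij := hμ i (hsub hi) j (hsub hj) hneg
      have hE : Sm U R T (fun z => Complex.exp (g i z - g j z)) := by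
        refine hexp (fun z => g i z - g j z) ((hg i (hsub hi)).sub (hg j (hsub hj))) ?_ hneg
        have h1 : deriv (fun z => g i z - g j z) = fun z => deriv (g i) z + (-1) * deriv (g j) z := by
          funext z
          rw [deriv_fun_sub (hg i (hsub hi) z) (hg j (hsub hj) z)]
          ring
        rw [h1]
        exact hadd _ _ (hg' i (hsub hi)) (hmul _ _ (hconst (-1)) (hg' j (hsub hj)))
      have hsub' : s'.erase i ⊆ s := (Finset.erase_subset _ _).trans hsub
      rw [← DP_merge s' c g (fun i => Complex.exp (t * (μ i : ℂ))) hi hj hij (by rw [hμij]) z]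
      refine ih (s'.erase i) ?_ _ g μ ?_ (fun l hl => hg l (hsub' hl)) (fun l hl => hg' l (hsub' hl))
        (fun l hl m hm => hμ l (hsub' hl) m (hsub' hm)) ?_ t z
      · have h1 := Finset.card_erase_lt_of_mem hi
        have h2 := Finset.card_le_card hsub
        omega
      · intro l hl
        by_cases hlj : l = j
        · subst hlj
          rw [Function.update_self]
          exact hadd _ _ (hc l (hsub hj)) (hmul _ _ (hc i (hsub hi)) hE)
        · rw [Function.update_of_ne hlj]
          exact hc l (hsub' hl)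
      · intro z
        have h1 := DP_merge s' c g (fun _ => 1) hi hj hij rfl z
        simp only [mul_one] at h1
        rw [h1]
        exact hrel' z
  intro s c g μ hc hg hg' hμ hrel t z
  exact main s.card s le_rfl c g μ hc hg hg' hμ hrel t z

end Pool.Agent.R876.SV
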