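import Mathlib

/-!
Project SV (helper876): MP_6db049_an.
If the derivative and the shift difference of a meromorphic function share two finite values
and infinity counting multiplicities, they coincide (no growth assumption).
Definitions.
-/

namespace Pool.Agent.R876.SV

open Filter Topology Real

/-- Mean value of `|Re g|` over the circle of radius `r` about the origin. -/
noncomputable def mRe (g : ℂ → ℂ) (r : ℝ) : ℝ :=
  circleAverage (fun z => |(g z).re|) 0 r

/-- Proximity function: mean value of `log⁺ |h|` over the circle of radius `r`. -/
noncomputable def mLog (h : ℂ → ℂ) (r : ℝ) : ℝ :=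
  circleAverage (fun z => Real.posLog ‖h z‖) 0 r

/-- A scale: radii `R n ≥ 1`, normalisations `T n > 0` tending to infinity along `U`. -/
structure Scale (U : Filter ℕ) (R T : ℕ → ℝ) : Prop where
  one_le : ∀ n, 1 ≤ R n
  pos : ∀ n, 0 < T n
  top : Tendsto T U atTop

/-- `h` is entire and all its derivatives are small functions with respect to the scale. -/
def Sm (U : Filter ℕ) (R T : ℕ → ℝ) (h : ℂ → ℂ) : Prop :=
  Differentiable ℂ h ∧
    ∀ l : ℕ, Tendsto (fun n => mLog (iteratedDeriv l h) (R n) / T n) U (𝓝 0)

/-- `exp g` is a small function with respect to the scale. -/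
def Neg (U : Filter ℕ) (R T : ℕ → ℝ) (g : ℂ → ℂ) : Prop :=
  Tendsto (fun n => mRe g (R n) / T n) U (𝓝 0)

/-- Two meromorphic functions share the finite value `a` counting multiplicities:
the zeros of `g - a` and `h - a` have the same multiplicities
(`max 0 ord` is the multiplicity of a zero; it is `⊤` if the function vanishes identically). -/
def ShareVal (g h : ℂ → ℂ) (a : ℂ) : Prop :=
  ∀ z : ℂ, max 0 (meromorphicOrderAt (fun x => g x - a) z) =
    max 0 (meromorphicOrderAt (fun x => h x - a) z)

/-- Two meromorphic functions share `∞` counting multiplicities: same poles with the same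
multiplicities (`min 0 ord` is minus the multiplicity of a pole). -/
def SharePoles (g h : ℂ → ℂ) : Prop :=
  ∀ z : ℂ, min 0 (meromorphicOrderAt g z) = min 0 (meromorphicOrderAt h z)

/-- The hyper-order `limsup log log T(r,f) / log r` of a meromorphic function. -/
noncomputable def hyperOrder (f : ℂ → ℂ) : EReal :=
  Filter.limsup (fun r : ℝ =>
    ((Real.log (Real.log (ValueDistribution.characteristic f ⊤ r)) / Real.log r : ℝ) : EReal))
    atTop

end Pool.Agent.R876.SV
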