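import Pool.Agent.R876.SV.Stm

/-!
Project SV (helper876), MP_6db049_an: piece FN (functionals), by helper780.
-/

namespace Pool.Agent.R876.SV

open Filter Topology Real

namespace FNaux

theorem ci {f : ℂ → ℝ} (hf : Continuous f) (r : ℝ) : CircleIntegrable f 0 r :=
  hf.continuousOn.circleIntegrable'

/-- The weight. -/
noncomputable def psi (h : ℂ → ℂ) (z : ℂ) : ℝ := (h z).re / (1 + |(h z).re|)

theorem psi_cont {h : ℂ → ℂ} (hh : Continuous h) : Continuous (psi h) := by
  unfold psi
  have h1 : Continuous fun z => (h z).re := Complex.continuous_re.comp hh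
  refine h1.div (continuous_const.add h1.abs) (fun z => ?_)
  positivity

theorem psi_abs (h : ℂ → ℂ) (z : ℂ) : |psi h z| ≤ 1 := by
  unfold psi
  rw [abs_div, abs_of_pos (show (0 : ℝ) < 1 + |(h z).re| by positivity),
    div_le_one (by positivity)]
  linarith

/-- The pairing. -/
noncomputable def pair (h g : ℂ → ℂ) (r : ℝ) : ℝ :=
  circleAverage (fun z => psi h z * (g z).re) 0 r

theorem pair_le {h g : ℂ → ℂ} (hh : Continuous h) (hg : Continuous g) (r : ℝ) :
    |pair h g r| ≤ mRe g r := by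
  unfold pair mRe
  have h1 : Continuous fun z => (g z).re := Complex.continuous_re.comp hg
  refine abs_circleAverage_le_circleAverage_abs.trans
    (circleAverage_mono (ci ((psi_cont hh).mul h1).abs r) (ci h1.abs r) (fun z _ => ?_))
  change |psi h z * (g z).re| ≤ |(g z).re|
  rw [abs_mul]
  exact mul_le_of_le_one_left (abs_nonneg _) (psi_abs h z)

theorem mRe_nonneg (g : ℂ → ℂ) (r : ℝ) : 0 ≤ mRe g r :=
  circleAverage_nonneg_of_nonneg (fun _ _ => abs_nonneg _)

theorem pair_self {h : ℂ → ℂ} (hh : Continuous h) (r : ℝ) : mRe h r - 1 ≤ pair h h r := by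
  have h1 : Continuous fun z => (h z).re := Complex.continuous_re.comp hh
  have e : mRe h r - 1 = circleAverage (fun z => |(h z).re| - 1) 0 r := by
    unfold mRe
    rw [circleAverage_fun_sub (ci h1.abs r) (ci continuous_const r), circleAverage_const]
  rw [e]
  unfold pair
  refine circleAverage_mono (ci (h1.abs.sub continuous_const) r) (ci ((psi_cont hh).mul h1) r)
    (fun z _ => ?_)
  unfold psi
  have hp : (0 : ℝ) < 1 + |(h z).re| := by positivity
  rw [div_mul_eq_mul_div, le_div_iff₀ hp]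
  nlinarith [abs_mul_abs_self (h z).re]

theorem pair_sum {h : ℂ → ℂ} (hh : Continuous h) {g : Fin 4 → ℂ → ℂ}
    (hg : ∀ m, Continuous (g m)) (k : Fin 4 → ℤ) (r : ℝ) :
    pair h (fun z => ∑ m, (k m : ℂ) * g m z) r = ∑ m, (k m : ℝ) * pair h (g m) r := by
  unfold pair
  have e : (fun z => psi h z * (∑ m, (k m : ℂ) * g m z).re)
      = fun z => ∑ m, ((k m : ℝ) • (psi h z * (g m z).re)) := by
    funext z
    rw [Complex.re_sum, Finset.mul_sum]
    refine Finset.sum_congr rfl (fun m _ => ?_)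
    have : ((k m : ℂ) * g m z).re = (k m : ℝ) * (g m z).re := by
      rw [show ((k m : ℤ) : ℂ) = (((k m : ℤ) : ℝ) : ℂ) by push_cast; rfl, Complex.re_ofReal_mul]
    rw [this, smul_eq_mul]
    ring
  rw [e, circleAverage_fun_sum]
  · refine Finset.sum_congr rfl (fun m _ => ?_)
    rw [circleAverage_fun_smul, smul_eq_mul]
  · intro m _
    have hcont : Continuous (fun z => (k m : ℝ) • (psi h z * (g m z).re)) :=
      continuous_const.mul ((psi_cont hh).mul (Complex.continuous_re.comp (hg m)))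
    exact ci hcont r

theorem ulim (U : Ultrafilter ℕ) (a : ℕ → ℝ) (ha : ∀ n, |a n| ≤ 1) :
    ∃ x : ℝ, Tendsto a (U : Filter ℕ) (𝓝 x) := by
  have hc : IsCompact (Set.Icc (-1 : ℝ) 1) := isCompact_Icc
  obtain ⟨x, -, hx⟩ := hc.ultrafilter_le_nhds' (U.map a)
    (Ultrafilter.mem_map.mpr (Filter.univ_mem' (fun n => abs_le.mp (ha n))))
  exact ⟨x, hx⟩

theorem func (U : Ultrafilter ℕ) (R T : ℕ → ℝ) (hs : Scale (U : Filter ℕ) R T)
    (g : Fin 4 → ℂ → ℂ) (hg : ∀ i, Differentiable ℂ (g i))
    (hT : ∀ n, T n = ∑ i, mRe (g i) (R n)) (i : Fin 4)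
    (hi : ¬ Neg (U : Filter ℕ) R T (g i)) :
    ∃ μ : Fin 4 → ℝ, 0 < μ i ∧
      ∀ k : Fin 4 → ℤ, Neg (U : Filter ℕ) R T (fun z => ∑ m, (k m : ℂ) * g m z) →
        ∑ m, (k m : ℝ) * μ m = 0 := by
  have hc : ∀ m, Continuous (g m) := fun m => (hg m).continuous
  have hle : ∀ m n, mRe (g m) (R n) ≤ T n := by
    intro m n
    rw [hT n]
    exact Finset.single_le_sum (f := fun m => mRe (g m) (R n))
      (fun j _ => mRe_nonneg (g j) (R n)) (Finset.mem_univ m)
  have hb : ∀ m n, |pair (g i) (g m) (R n) / T n| ≤ 1 := by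
    intro m n
    rw [abs_div, abs_of_pos (hs.pos n), div_le_one (hs.pos n)]
    exact (pair_le (hc i) (hc m) (R n)).trans (hle m n)
  choose μ hμ using fun m => ulim U (fun n => pair (g i) (g m) (R n) / T n) (hb m)
  refine ⟨μ, ?_, ?_⟩
  · obtain ⟨L, hL⟩ := ulim U (fun n => mRe (g i) (R n) / T n) (by
      intro n
      rw [abs_of_nonneg (div_nonneg (mRe_nonneg _ _) (hs.pos n).le), div_le_one (hs.pos n)]
      exact hle i n)
    have hL0 : 0 ≤ L := ge_of_tendsto' hL (fun n => div_nonneg (mRe_nonneg _ _) (hs.pos n).le)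
    have hLn : L ≠ 0 := by
      intro h0
      rw [h0] at hL
      exact hi hL
    have hinv : Tendsto (fun n => 1 / T n) (U : Filter ℕ) (𝓝 0) := by
      have := tendsto_inv_atTop_zero.comp hs.top
      refine this.congr (fun n => ?_)
      rw [one_div, Function.comp_apply]
    have hlow : L - 0 ≤ μ i := by
      refine le_of_tendsto_of_tendsto' (hL.sub hinv) (hμ i) (fun n => ?_)
      rw [← sub_div]
      exact div_le_div_of_nonneg_right (pair_self (hc i) (R n)) (hs.pos n).le
    have : 0 < L := lt_of_le_of_ne hL0 (Ne.symm hLn)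
    linarith
  · intro k hk
    have hcs : Continuous (fun z => ∑ m, (k m : ℂ) * g m z) :=
      continuous_finsetSum _ (fun m _ => continuous_const.mul (hc m))
    have h1 : Tendsto (fun n => ∑ m, (k m : ℝ) * (pair (g i) (g m) (R n) / T n))
        (U : Filter ℕ) (𝓝 (∑ m, (k m : ℝ) * μ m)) :=
      tendsto_finsetSum _ (fun m _ => (hμ m).const_mul _)
    have h2 : Tendsto (fun n => ∑ m, (k m : ℝ) * (pair (g i) (g m) (R n) / T n))
        (U : Filter ℕ) (𝓝 0) := by
      refine squeeze_zero_norm (fun n => ?_) hk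
      have e : ∑ m, (k m : ℝ) * (pair (g i) (g m) (R n) / T n)
          = pair (g i) (fun z => ∑ m, (k m : ℂ) * g m z) (R n) / T n := by
        rw [pair_sum (hc i) hc, Finset.sum_div]
        exact Finset.sum_congr rfl (fun m _ => by ring)
      rw [e, Real.norm_eq_abs, abs_div, abs_of_pos (hs.pos n)]
      exact div_le_div_of_nonneg_right (pair_le (hc i) hcs (R n)) (hs.pos n).le
    exact tendsto_nhds_unique h1 h2

end FNaux

theorem FN : S_FN := by
  intro U R T hs g hg hT i j hi hj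
  obtain ⟨μ, hμi, hμ⟩ := FNaux.func U R T hs g hg hT i hi
  obtain ⟨ν, hνj, hν⟩ := FNaux.func U R T hs g hg hT j hj
  obtain ⟨s, h1, h2⟩ : ∃ s : ℝ, μ i + s * ν i ≠ 0 ∧ μ j + s * ν j ≠ 0 := by
    by_cases hb : μ j = 0
    · by_cases ha : μ i + ν i = 0
      · refine ⟨2, ?_, ?_⟩
        · intro h; linarith
        · intro h; linarith
      · refine ⟨1, ?_, ?_⟩
        · rwa [one_mul]
        · intro h; linarith
    · exact ⟨0, by simpa using hμi.ne', by simpa using hb⟩
  refine ⟨fun m => μ m + s * ν m, h1, h2, fun k hk => ?_⟩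
  have a := hμ k hk
  have b := hν k hk
  have e : ∑ m, (k m : ℝ) * (μ m + s * ν m)
      = ∑ m, (k m : ℝ) * μ m + s * ∑ m, (k m : ℝ) * ν m := by
    rw [Finset.mul_sum, ← Finset.sum_add_distrib]
    exact Finset.sum_congr rfl (fun m _ => by ring)
  rw [e, a, b, mul_zero, add_zero]

end Pool.Agent.R876.SV
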