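import Pool.Agent.R876.SV.CoreE

/-!
Project SV, final assembly (with the pieces as hypotheses).
-/

namespace Pool.Agent.R876.SV

open Filter Topology

lemma shift_ev {f g : ℂ → ℂ} (h : ∀ z, ∀ᶠ x in 𝓝[≠] z, f x = g x) (c : ℂ) :
    ∀ z, ∀ᶠ x in 𝓝[≠] z, f (x + c) = g (x + c) := by
  intro z
  have h1 := h (z + c)
  have ht : Tendsto (fun x : ℂ => x + c) (𝓝[≠] z) (𝓝[≠] (z + c)) := by
    apply tendsto_nhdsWithin_of_tendsto_nhds_of_eventually_within
    · exact ((continuous_id.add continuous_const).tendsto z).mono_left nhdsWithin_le_nhds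
    · filter_upwards [self_mem_nhdsWithin] with x hx
      intro h
      exact hx (add_right_cancel h)
  exact ht.eventually h1

lemma deriv_ev {f g : ℂ → ℂ} (h : ∀ z, ∀ᶠ x in 𝓝[≠] z, f x = g x) :
    ∀ z, ∀ᶠ x in 𝓝[≠] z, deriv f x = deriv g x := by
  intro z
  have h1 := h z
  rw [eventually_nhdsWithin_iff] at h1
  have h2 := h1.eventually_nhds
  rw [eventually_nhdsWithin_iff]
  filter_upwards [h2] with x hx hxz
  have hne : ∀ᶠ y in 𝓝 x, y ≠ z := isOpen_ne.mem_nhds hxz
  have : f =ᶠ[𝓝 x] g := by
    filter_upwards [hx, hne] with y hy hyz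
    exact hy hyz
  exact this.deriv_eq

lemma order_nonneg {h : ℂ → ℂ} (hd : Differentiable ℂ h) (z : ℂ) : 0 ≤ meromorphicOrderAt h z :=
  (hd.analyticAt z).meromorphicOrderAt_nonneg

lemma not_top {h : ℂ → ℂ} (hd : Differentiable ℂ h) (hne : ∃ z, h z ≠ 0) (z : ℂ) :
    meromorphicOrderAt h z ≠ ⊤ := by
  intro htop
  rw [meromorphicOrderAt_eq_top_iff] at htop
  obtain ⟨x, hx⟩ := (htop.and (gen hd hne z)).exists
  exact hx.2 hx.1

theorem general (hGR : S_GR) (hSM : S_SM) (hDP : S_DP) (hFN : S_FN) (hUN : S_UN) (hME : S_ME)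
    (f : ℂ → ℂ) (c a b : ℂ) (hf : ∀ z, MeromorphicAt f z) (hc : c ≠ 0) (hab : a ≠ b)
    (hnaff : ¬ ∃ α β : ℂ, ∀ z, ∀ᶠ x in 𝓝[≠] z, f x = α * x + β)
    (ha : ShareVal (deriv f) (fun x => f (x + c) - f x) a)
    (hb : ShareVal (deriv f) (fun x => f (x + c) - f x) b)
    (hinf : SharePoles (deriv f) (fun x => f (x + c) - f x)) :
    ∀ z, ∀ᶠ x in 𝓝[≠] z, deriv f x = f (x + c) - f x := by
  obtain ⟨g, hg, hfg⟩ := hME f c hf hc hinf
  have hd := deriv_ev hfg
  have hs := shift_ev hfg c
  have hΔ : ∀ z, ∀ᶠ x in 𝓝[≠] z, f (x + c) - f x = g (x + c) - g x := by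
    intro z
    filter_upwards [hs z, hfg z] with x h1 h2
    rw [h1, h2]
  have hg' : Differentiable ℂ (deriv g) := fun z => (hg.analyticAt z).deriv.differentiableAt
  have hgΔ : Differentiable ℂ fun x => g (x + c) - g x := (shiftd hg c).sub hg
  have hn : ∃ z, deriv g z ≠ deriv g 0 := by
    by_contra hcon
    push Not at hcon
    apply hnaff
    refine ⟨deriv g 0, g 0, fun z => ?_⟩
    filter_upwards [hfg z] with x hx
    rw [hx]
    have hk : Differentiable ℂ fun z => g z - deriv g 0 * z :=
      hg.sub (differentiable_id.const_mul _)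
    have h0 : ∀ z, deriv (fun z => g z - deriv g 0 * z) z = 0 := by
      intro z
      have h1 : HasDerivAt (fun z => g z - deriv g 0 * z) (deriv g z - deriv g 0 * 1) z :=
        (hg z).hasDerivAt.sub ((hasDerivAt_id z).const_mul _)
      rw [h1.deriv, hcon z]; ring
    have := is_const_of_deriv_eq_zero hk h0 x 0
    simp only [mul_zero, sub_zero] at this
    linear_combination this
  have aux : ∀ a : ℂ, ShareVal (deriv f) (fun x => f (x + c) - f x) a →
      ∃ A : ℂ → ℂ, Differentiable ℂ A ∧
        ∀ z, deriv g z - a = Complex.exp (A z) * (g (z + c) - g z - a) := by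
    intro a ha
    have hFd : Differentiable ℂ fun x => deriv g x - a := hg'.sub_const a
    have hGd : Differentiable ℂ fun x => g (x + c) - g x - a := hgΔ.sub_const a
    have hF : ∃ z, deriv g z - a ≠ 0 := by
      by_contra hcon
      push Not at hcon
      obtain ⟨z, hz⟩ := hn
      apply hz
      linear_combination hcon z - hcon 0
    have ho : ∀ z, meromorphicOrderAt (fun x => deriv g x - a) z =
        meromorphicOrderAt (fun x => g (x + c) - g x - a) z := by
      intro z
      have h1 := ha z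
      have e1 : meromorphicOrderAt (fun x => deriv f x - a) z =
          meromorphicOrderAt (fun x => deriv g x - a) z := by
        apply meromorphicOrderAt_congr
        filter_upwards [hd z] with x hx
        rw [hx]
      have e2 : meromorphicOrderAt (fun x => (f (x + c) - f x) - a) z =
          meromorphicOrderAt (fun x => g (x + c) - g x - a) z := by
        apply meromorphicOrderAt_congr
        filter_upwards [hΔ z] with x hx
        rw [hx]
      rw [e1, e2, max_eq_right (order_nonneg hFd z), max_eq_right (order_nonneg hGd z)] at h1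
      exact h1
    have hG : ∃ z, g (z + c) - g z - a ≠ 0 := by
      by_contra hcon
      push Not at hcon
      have h1 := ho 0
      have h2 : meromorphicOrderAt (fun x => g (x + c) - g x - a) 0 = ⊤ := by
        rw [meromorphicOrderAt_eq_top_iff]
        exact Filter.Eventually.of_forall hcon
      rw [h2] at h1
      exact not_top hFd hF 0 h1
    exact hUN _ _ hFd hGd hF hG ho
  obtain ⟨A, hA, hA1⟩ := aux a ha
  obtain ⟨B, hB, hB1⟩ := aux b hb
  have hfin := CORE hGR hSM hDP hFN g A B c a b hg hA hB hc hab hn hA1 hB1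
  intro z
  filter_upwards [hd z, hΔ z] with x h1 h2
  rw [h1, h2]
  exact hfin x

end Pool.Agent.R876.SV
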