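import Pool.Agent.R876.SV.Stm

/-!
Project SV (helper876), piece GR: good radii.
-/

namespace Pool.Agent.R876.SV

open Filter Topology Real

theorem gr_mRe_nonneg (g : ℂ → ℂ) (r : ℝ) : 0 ≤ mRe g r :=
  circleAverage_nonneg_of_nonneg (fun _ _ => abs_nonneg _)

theorem gr_re_le {g : ℂ → ℂ} (hg : Differentiable ℂ g) {R : ℝ} (hR : 0 < R) {w : ℂ}
    (hw : w ∈ Metric.ball (0 : ℂ) R) :
    (g w).re ≤ (R + ‖w‖) / (R - ‖w‖) * mRe g R := by
  have hwR : ‖w‖ < R := by simpa using hw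
  have h1 := (hg.diffContOnCl
    (s := Metric.ball (0 : ℂ) R)).circleAverage_re_herglotzRieszKernel_smul' hw
  have hgc : Continuous g := hg.continuous
  have hne : ∀ z ∈ Metric.sphere (0 : ℂ) |R|, (z - 0) - (w - 0) ≠ 0 := by
    intro z hz h0
    have : z = w := by
      have := sub_eq_zero.1 h0
      simpa using this
    subst this
    rw [abs_of_pos hR] at hz
    simp at hz
    linarith
  have hker : ContinuousOn (fun z : ℂ => ((z - 0 + (w - 0)) / ((z - 0) - (w - 0))).re)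
      (Metric.sphere (0 : ℂ) |R|) := by
    apply Complex.continuous_re.comp_continuousOn
    apply ContinuousOn.div (by fun_prop) (by fun_prop) hne
  have hci : CircleIntegrable
      (fun z : ℂ => ((z - 0 + (w - 0)) / ((z - 0) - (w - 0))).re • g z) 0 R :=
    ContinuousOn.circleIntegrable' (hker.smul hgc.continuousOn)
  have h2 := Complex.reCLM.circleAverage_comp_comm hci
  rw [h1] at h2
  simp only [Complex.reCLM_apply] at h2
  rw [← h2]
  have h3 : (R + ‖w‖) / (R - ‖w‖) * mRe g R =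
      circleAverage (fun z => ((R + ‖w‖) / (R - ‖w‖)) • |(g z).re|) 0 R := by
    rw [circleAverage_fun_smul]; rfl
  rw [h3]
  apply circleAverage_mono
  · apply ContinuousOn.circleIntegrable'
    exact Complex.continuous_re.comp_continuousOn (hker.smul hgc.continuousOn)
  · apply ContinuousOn.circleIntegrable'
    exact ((Complex.continuous_re.comp hgc).abs.const_smul ((R + ‖w‖) / (R - ‖w‖))).continuousOn
  · intro z hz
    rw [abs_of_pos hR] at hz
    have k1 := re_herglotzRieszKernel_le hz hw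
    have k2 := le_re_herglotzRieszKernel hz hw
    have k3 : 0 ≤ (R - ‖w - 0‖) / (R + ‖w - 0‖) := by
      rw [sub_zero]
      apply div_nonneg <;> linarith [norm_nonneg w]
    have k4 := k3.trans k2
    rw [sub_zero w] at k1
    simp only [Function.comp_apply, Complex.reCLM_apply, smul_eq_mul, Complex.smul_re]
    rw [sub_zero w] at k4 ⊢
    calc _ ≤ ((z - 0 + w) / (z - 0 - w)).re * |(g z).re| :=
          mul_le_mul_of_nonneg_left (le_abs_self _) k4
      _ ≤ _ := mul_le_mul_of_nonneg_right k1 (abs_nonneg _)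

theorem gr_bound {g : ℂ → ℂ} (hg : Differentiable ℂ g) {ρ R K : ℝ} (hρ : 0 < ρ) (hR : ρ < R)
    (hK : R / (R - ρ) ≤ K) {z : ℂ} (hz : ‖z‖ ≤ ρ) :
    ‖g z‖ ≤ 16 * K ^ 2 * mRe g R + 4 * K * (1 + ‖g 0‖) := by
  have hRρ : 0 < R - ρ := by linarith
  have hRK : R ≤ K * (R - ρ) := by rwa [div_le_iff₀ hRρ] at hK
  have hK1 : 1 ≤ K := by
    refine le_trans ?_ hK
    rw [le_div_iff₀ hRρ]
    linarith
  set m := mRe g R with hm
  have hm0 : 0 ≤ m := gr_mRe_nonneg g R
  set r1 : ℝ := (ρ + R) / 2 with hr1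
  have hr1pos : 0 < r1 := by rw [hr1]; linarith
  have hmaps : Set.MapsTo g (Metric.ball 0 r1) {z | z.re ≤ 4 * K * m + 1} := by
    intro w hw
    have hw' : ‖w‖ < r1 := by simpa using hw
    have hwR : w ∈ Metric.ball (0 : ℂ) R := by
      rw [mem_ball_zero_iff]
      rw [hr1] at hw'
      linarith
    have h1 := gr_re_le hg (by linarith) hwR
    have h2 : (R + ‖w‖) / (R - ‖w‖) ≤ 4 * K := by
      rw [div_le_iff₀ (by rw [mem_ball_zero_iff] at hwR; linarith)]
      have h3 : (R - ρ) / 2 ≤ R - ‖w‖ := by rw [hr1] at hw'; linarith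
      have h4 : 4 * K * ((R - ρ) / 2) ≤ 4 * K * (R - ‖w‖) :=
        mul_le_mul_of_nonneg_left h3 (by linarith)
      rw [mem_ball_zero_iff] at hwR
      linarith
    have h5 : (R + ‖w‖) / (R - ‖w‖) * m ≤ 4 * K * m := mul_le_mul_of_nonneg_right h2 hm0
    show (g w).re ≤ 4 * K * m + 1
    linarith
  have hzb : z ∈ Metric.ball (0 : ℂ) r1 := by
    rw [mem_ball_zero_iff, hr1]; linarith
  have hKm : 0 ≤ K * m := by positivity
  have h := Complex.borelCaratheodory (M := 4 * K * m + 1) (by linarith)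
    hg.differentiableOn hmaps hr1pos hzb
  have hden : 0 < r1 - ‖z‖ := by rw [hr1]; linarith
  have hd2 : (R - ρ) / 2 ≤ r1 - ‖z‖ := by rw [hr1]; linarith
  have a1 : 2 * (4 * K * m + 1) * ‖z‖ / (r1 - ‖z‖) ≤ 4 * K * (4 * K * m + 1) := by
    rw [div_le_iff₀ hden]
    have e1 : 4 * K * (4 * K * m + 1) * ((R - ρ) / 2) ≤
        4 * K * (4 * K * m + 1) * (r1 - ‖z‖) := mul_le_mul_of_nonneg_left hd2 (by positivity)
    have e2 : (4 * K * m + 1) * R ≤ (4 * K * m + 1) * (K * (R - ρ)) :=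
      mul_le_mul_of_nonneg_left hRK (by linarith)
    have e3 : (4 * K * m + 1) * ‖z‖ ≤ (4 * K * m + 1) * R :=
      mul_le_mul_of_nonneg_left (by linarith) (by linarith)
    nlinarith
  have a2 : ‖g 0‖ * (r1 + ‖z‖) / (r1 - ‖z‖) ≤ 4 * K * ‖g 0‖ := by
    rw [div_le_iff₀ hden]
    have e1 : r1 + ‖z‖ ≤ 4 * K * (r1 - ‖z‖) := by
      have : 4 * K * ((R - ρ) / 2) ≤ 4 * K * (r1 - ‖z‖) :=
        mul_le_mul_of_nonneg_left hd2 (by linarith)
      have e4 : r1 + ‖z‖ ≤ 2 * R := by rw [hr1]; linarith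
      linarith
    have := mul_le_mul_of_nonneg_left e1 (norm_nonneg (g 0))
    linarith
  calc ‖g z‖ ≤ _ := h
    _ ≤ 4 * K * (4 * K * m + 1) + 4 * K * ‖g 0‖ := add_le_add a1 a2
    _ = _ := by ring

theorem gr_borel (φ : ℝ → ℝ) (hφ : Monotone φ) (s1 : ℝ) (h1 : 1 ≤ φ s1) :
    ∃ s, s1 ≤ s ∧ φ (s + 1 / φ s) ≤ 2 * φ s := by
  by_contra hc
  push Not at hc
  have key : ∀ k : ℕ, ∃ s, s1 ≤ s ∧ s ≤ s1 + 2 - 2 / 2 ^ k ∧ (2 : ℝ) ^ k ≤ φ s := by
    intro k
    induction k with
    | zero => exact ⟨s1, le_rfl, by norm_num, by simpa using h1⟩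
    | succ k ih =>
      obtain ⟨s, hs1, hs2, hs3⟩ := ih
      have hpos : (0 : ℝ) < 2 ^ k := by positivity
      have hφs : 0 < φ s := lt_of_lt_of_le hpos hs3
      refine ⟨s + 1 / φ s, ?_, ?_, ?_⟩
      · have : 0 < 1 / φ s := by positivity
        linarith
      · have h3 : 1 / φ s ≤ 1 / 2 ^ k := one_div_le_one_div_of_le hpos hs3
        have e : (2 : ℝ) / 2 ^ (k + 1) = 1 / 2 ^ k := by rw [pow_succ]; field_simp
        have e2 : (2 : ℝ) / 2 ^ k = 1 / 2 ^ k + 1 / 2 ^ k := by ring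
        rw [e]
        rw [e2] at hs2
        linarith
      · have := hc s hs1
        rw [pow_succ]
        linarith
  obtain ⟨k, hk⟩ := pow_unbounded_of_one_lt (φ (s1 + 2)) (one_lt_two (α := ℝ))
  obtain ⟨s, hs1, hs2, hs3⟩ := key k
  have h2 : φ s ≤ φ (s1 + 2) := hφ (by
    have : (0 : ℝ) ≤ 2 / 2 ^ k := by positivity
    linarith)
  linarith

theorem gr_sup (N : ℂ → ℝ) (hN : Continuous N) : ∃ ψ : ℝ → ℝ, Monotone ψ ∧
    (∀ s z, ‖z‖ ≤ exp s → N z ≤ ψ s) ∧
    (∀ s B, (∀ z, ‖z‖ ≤ exp s → N z ≤ B) → ψ s ≤ B) := by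
  have hb : ∀ s, BddAbove (N '' Metric.closedBall (0 : ℂ) (exp s)) :=
    fun s => ((isCompact_closedBall 0 _).image hN).bddAbove
  have hne : ∀ s, (N '' Metric.closedBall (0 : ℂ) (exp s)).Nonempty :=
    fun s => (Metric.nonempty_closedBall.2 (exp_pos s).le).image N
  refine ⟨fun s => sSup (N '' Metric.closedBall (0 : ℂ) (exp s)), ?_, ?_, ?_⟩
  · intro s t hst
    exact csSup_le_csSup (hb t) (hne s)
      (Set.image_mono (Metric.closedBall_subset_closedBall (exp_le_exp.2 hst)))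
  · intro s z hz
    exact le_csSup (hb s) ⟨z, by simpa using hz, rfl⟩
  · intro s B hB
    apply csSup_le (hne s)
    rintro _ ⟨z, hz, rfl⟩
    exact hB z (by simpa using hz)

theorem gr_low {g : Fin 4 → ℂ → ℂ} (hg : ∀ i, Differentiable ℂ (g i)) (s L : ℝ) (hL : 1 ≤ L)
    (h : 32 * (1 + ∑ i, (1 + ‖g i 0‖)) * L ≤ exp L)
    (hψ : ∀ B, (∀ z, ‖z‖ ≤ exp s → 1 + ∑ i, ‖g i z‖ ≤ B) → exp L ≤ B) :
    exp L / (512 * L ^ 2) ≤ ∑ i, mRe (g i) (exp (s + 1 / (2 * L))) := by
  set R : ℝ := exp (s + 1 / (2 * L)) with hR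
  set T : ℝ := ∑ i, mRe (g i) R with hT
  have hx : 0 < 1 / (2 * L) := by positivity
  have hRe : R = exp s * exp (1 / (2 * L)) := by rw [hR, exp_add]
  have he1 : 1 / (2 * L) + 1 ≤ exp (1 / (2 * L)) := add_one_le_exp _
  have hs : 0 < exp s := exp_pos s
  have hRs : exp s < R := by
    rw [hR]
    exact exp_lt_exp.2 (by linarith)
  have hK : R / (R - exp s) ≤ 4 * L := by
    rw [div_le_iff₀ (by linarith), hRe]
    have e1 : exp s * (1 + 1 / (2 * L)) ≤ exp s * exp (1 / (2 * L)) :=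
      mul_le_mul_of_nonneg_left (by linarith) hs.le
    set E := exp s * exp (1 / (2 * L)) with hE
    have e2 : (4 * L - 1) * (exp s * (1 + 1 / (2 * L))) ≤ (4 * L - 1) * E :=
      mul_le_mul_of_nonneg_left e1 (by linarith)
    have e3 : (4 * L - 1) * (exp s * (1 + 1 / (2 * L))) =
        exp s * (4 * L) + exp s * (1 - 1 / (2 * L)) := by
      field_simp
      ring
    have e4 : 1 / (2 * L) ≤ 1 := by
      rw [div_le_one (by linarith)]
      linarith
    have e5 : 0 ≤ exp s * (1 - 1 / (2 * L)) := mul_nonneg hs.le (by linarith)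
    nlinarith
  have hB : exp L ≤ 1 + (16 * (4 * L) ^ 2 * T + 4 * (4 * L) * ∑ i, (1 + ‖g i 0‖)) := by
    apply hψ
    intro z hz
    rw [hT, Finset.mul_sum, Finset.mul_sum, ← Finset.sum_add_distrib]
    have : ∑ i, ‖g i z‖ ≤ ∑ i, (16 * (4 * L) ^ 2 * mRe (g i) R + 4 * (4 * L) * (1 + ‖g i 0‖)) :=
      Finset.sum_le_sum (fun i _ => gr_bound (hg i) hs hRs hK hz)
    linarith
  have hS : 0 ≤ ∑ i, (1 + ‖g i 0‖) := Finset.sum_nonneg (fun i _ => by positivity)
  set S := ∑ i, (1 + ‖g i 0‖) with hSdef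
  rw [div_le_iff₀ (by positivity)]
  have hL2 : 0 < L ^ 2 := by positivity
  nlinarith [mul_nonneg hS (by linarith : (0:ℝ) ≤ L)]

theorem gr_up {f : ℂ → ℂ} (hf : Differentiable ℂ f) (s L : ℝ) (hs : 0 ≤ s) (hL : 1 ≤ L)
    (h : ∀ z, ‖z‖ ≤ exp (s + 1 / L) → ‖f z‖ ≤ exp (2 * L)) (l : ℕ) :
    mLog (iteratedDeriv l f) (exp (s + 1 / (2 * L))) ≤
      (log (l.factorial : ℝ) + 2 + 2 * l) * L := by
  set R : ℝ := exp (s + 1 / (2 * L)) with hR
  have hRpos : 0 < R := exp_pos _
  have hR1 : 1 ≤ R := by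
    rw [hR]
    apply one_le_exp
    positivity
  have hδ : 0 < 1 / (2 * L) := by positivity
  have hsm : ContDiff ℂ ⊤ f := hf.contDiff
  have hcont : Continuous (iteratedDeriv l f) := hsm.continuous_iteratedDeriv l (by simp)
  have hρ' : R + 1 / (2 * L) ≤ exp (s + 1 / L) := by
    have e1 : exp (s + 1 / L) = R * exp (1 / (2 * L)) := by
      rw [hR, ← exp_add]
      congr 1
      field_simp
      ring
    have e2 : 1 / (2 * L) + 1 ≤ exp (1 / (2 * L)) := add_one_le_exp _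
    rw [e1]
    nlinarith
  unfold mLog
  apply circleAverage_mono_on_of_le_circle
  · apply ContinuousOn.circleIntegrable'
    exact (continuous_posLog.comp hcont.norm).continuousOn
  · intro z hz
    rw [abs_of_pos hRpos] at hz
    have hzR : ‖z‖ = R := by simpa using hz
    have hC : ‖iteratedDeriv l f z‖ ≤ l.factorial * exp (2 * L) / (1 / (2 * L)) ^ l := by
      apply Complex.norm_iteratedDeriv_le_of_forall_mem_sphere_norm_le l hδ hf.diffContOnCl
      intro w hw
      apply h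
      have h1 : ‖w - z‖ = 1 / (2 * L) := by rwa [mem_sphere_iff_norm] at hw
      calc ‖w‖ = ‖z + (w - z)‖ := by congr 1; ring
        _ ≤ ‖z‖ + ‖w - z‖ := norm_add_le _ _
        _ = R + 1 / (2 * L) := by rw [hzR, h1]
        _ ≤ _ := hρ'
    have hfac : (1 : ℝ) ≤ l.factorial := by exact_mod_cast Nat.one_le_iff_ne_zero.2 l.factorial_ne_zero
    have e3 : (2 * L) ^ l ≤ exp (2 * L * l) := by
      rw [mul_comm (2 * L) (l : ℝ), exp_nat_mul]
      apply pow_le_pow_left₀ (by linarith)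
      linarith [add_one_le_exp (2 * L)]
    have hC2 : ‖iteratedDeriv l f z‖ ≤ exp ((log (l.factorial : ℝ) + 2 + 2 * l) * L) := by
      calc ‖iteratedDeriv l f z‖ ≤ l.factorial * exp (2 * L) / (1 / (2 * L)) ^ l := hC
        _ = l.factorial * exp (2 * L) * (2 * L) ^ l := by
          rw [one_div, inv_pow, div_inv_eq_mul]
        _ ≤ l.factorial * exp (2 * L) * exp (2 * L * l) :=
          mul_le_mul_of_nonneg_left e3 (by positivity)
        _ = exp (log (l.factorial : ℝ) + 2 * L + 2 * L * l) := by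
          rw [exp_add, exp_add, exp_log (by linarith)]
        _ ≤ _ := by
          apply exp_le_exp.2
          have : 0 ≤ log (l.factorial : ℝ) := log_nonneg hfac
          nlinarith
    have h0 : 0 ≤ (log (l.factorial : ℝ) + 2 + 2 * l) * L := by
      have : 0 ≤ log (l.factorial : ℝ) := log_nonneg hfac
      positivity
    calc posLog ‖iteratedDeriv l f z‖
        ≤ posLog (exp ((log (l.factorial : ℝ) + 2 + 2 * l) * L)) :=
          posLog_le_posLog (norm_nonneg _) hC2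
      _ = (log (l.factorial : ℝ) + 2 + 2 * l) * L := by
          rw [posLog_eq_log, log_exp]
          rw [abs_of_pos (exp_pos _)]
          exact one_le_exp h0

theorem GR : S_GR := by
  intro g hg hnc
  have hNc : Continuous (fun z => 1 + ∑ i, ‖g i z‖) :=
    continuous_const.add (continuous_finsetSum _ (fun i _ => (hg i).continuous.norm))
  obtain ⟨ψ, hψm, hψ1, hψ2⟩ := gr_sup _ hNc
  have hψpos : ∀ s, 1 ≤ ψ s := by
    intro s
    have h1 := hψ1 s 0 (by simpa using (exp_pos s).le)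
    have h2 : 0 ≤ ∑ i, ‖g i 0‖ := Finset.sum_nonneg (fun i _ => norm_nonneg _)
    linarith
  have hunb : ∀ B : ℝ, ∃ s, B < ψ s := by
    intro B
    by_contra hc
    push Not at hc
    obtain ⟨i, z, hz⟩ := hnc
    apply hz
    apply (hg i).apply_eq_apply_of_bounded
    rw [isBounded_iff_forall_norm_le]
    refine ⟨B, ?_⟩
    rintro _ ⟨w, rfl⟩
    have h1 := hψ1 (log (‖w‖ + 1)) w (by rw [exp_log (by positivity)]; linarith)
    have h2 := hc (log (‖w‖ + 1))
    have h3 : ‖g i w‖ ≤ ∑ i, ‖g i w‖ :=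
      Finset.single_le_sum (f := fun i => ‖g i w‖) (fun _ _ => norm_nonneg _) (Finset.mem_univ i)
    linarith
  have hφm : Monotone (fun s => log (ψ s)) :=
    fun s t hst => log_le_log (by linarith [hψpos s]) (hψm hst)
  have hφtop : ∀ B : ℝ, ∃ s0 : ℝ, ∀ s : ℝ, s0 ≤ s → B ≤ log (ψ s) := by
    intro B
    obtain ⟨s0, hs0⟩ := hunb (exp B)
    refine ⟨s0, fun s hs => ?_⟩
    rw [← log_exp B]
    exact log_le_log (exp_pos _) (hs0.le.trans (hψm hs))
  have hC0 : 0 ≤ ∑ i, (1 + ‖g i 0‖) := Finset.sum_nonneg (fun i _ => by positivity)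
  set C0 : ℝ := 1 + ∑ i, (1 + ‖g i 0‖) with hC0def
  have hC1 : 1 ≤ C0 := by linarith
  have hX : ∀ x : ℝ, 64 * C0 ≤ x → 32 * C0 * x ≤ exp x := by
    intro x hx
    have h1 := Real.quadratic_le_exp_of_nonneg (x := x) (by linarith)
    nlinarith
  have hsel : ∀ n : ℕ, ∃ s : ℝ, 0 ≤ s ∧ (n : ℝ) + 1 ≤ log (ψ s) ∧ 64 * C0 ≤ log (ψ s) ∧
      log (ψ (s + 1 / log (ψ s))) ≤ 2 * log (ψ s) := by
    intro n
    obtain ⟨s0, hs0⟩ := hφtop (max ((n : ℝ) + 1) (64 * C0))
    have h1 : 1 ≤ log (ψ (max 0 s0)) := by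
      have := hs0 (max 0 s0) (le_max_right _ _)
      have h2 := (le_max_right ((n : ℝ) + 1) (64 * C0)).trans this
      linarith
    obtain ⟨s, hs1, hs2⟩ := gr_borel (fun s => log (ψ s)) hφm (max 0 s0) h1
    have h3 := hs0 s ((le_max_right _ _).trans hs1)
    exact ⟨s, (le_max_left _ _).trans hs1, (le_max_left _ _).trans h3,
      (le_max_right _ _).trans h3, hs2⟩
  choose s hs0 hsn hsX hsB using hsel
  set L : ℕ → ℝ := fun n => log (ψ (s n)) with hLdef
  have hL1 : ∀ n, 1 ≤ L n := fun n => by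
    have := hsX n
    show 1 ≤ log (ψ (s n))
    linarith
  have hLtop : Tendsto L atTop atTop := by
    apply tendsto_atTop_mono (f := fun n : ℕ => (n : ℝ))
    · intro n
      have := hsn n
      show (n : ℝ) ≤ log (ψ (s n))
      linarith
    · exact tendsto_natCast_atTop_atTop
  have hexpL : ∀ n, exp (L n) = ψ (s n) := fun n => exp_log (by linarith [hψpos (s n)])
  have hlow : ∀ n, exp (L n) / (512 * (L n) ^ 2) ≤
      ∑ i, mRe (g i) (exp (s n + 1 / (2 * L n))) := by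
    intro n
    apply gr_low hg (s n) (L n) (hL1 n) (hX _ (hsX n))
    intro B hB
    rw [hexpL]
    exact hψ2 _ _ hB
  have hup : ∀ n i, ∀ l : ℕ, mLog (iteratedDeriv l (g i)) (exp (s n + 1 / (2 * L n))) ≤
      (log (l.factorial : ℝ) + 2 + 2 * l) * L n := by
    intro n i l
    apply gr_up (hg i) (s n) (L n) (hs0 n) (hL1 n)
    intro z hz
    have h1 := hψ1 _ z hz
    have h2 : ψ (s n + 1 / L n) ≤ exp (2 * L n) := by
      rw [← exp_log (by linarith [hψpos (s n + 1 / L n)] : 0 < ψ (s n + 1 / L n))]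
      exact exp_le_exp.2 (hsB n)
    have h3 : ‖g i z‖ ≤ ∑ i, ‖g i z‖ :=
      Finset.single_le_sum (f := fun i => ‖g i z‖) (fun _ _ => norm_nonneg _) (Finset.mem_univ i)
    linarith
  refine ⟨fun n => exp (s n + 1 / (2 * L n)), fun n => ∑ i, mRe (g i) (exp (s n + 1 / (2 * L n))),
    ?_, ?_, ?_, fun n => rfl, ?_⟩
  · intro n
    apply one_le_exp
    have := hs0 n
    have := hL1 n
    positivity
  · intro n
    refine lt_of_lt_of_le ?_ (hlow n)
    have := hL1 n
    positivity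
  · apply tendsto_atTop_mono hlow
    have h1 : Tendsto (fun x : ℝ => exp x / x ^ 2) atTop atTop := tendsto_exp_div_pow_atTop 2
    have h2 := (h1.comp hLtop).atTop_div_const (r := 512) (by norm_num)
    refine h2.congr (fun n => ?_)
    simp only [Function.comp_apply]
    have := hL1 n
    field_simp
  · intro i l
    set C : ℝ := log ((l + 1).factorial : ℝ) + 2 + 2 * ((l + 1 : ℕ) : ℝ) with hC
    have h1 : Tendsto (fun x : ℝ => x ^ 3 * exp (-x)) atTop (𝓝 0) :=
      tendsto_pow_mul_exp_neg_atTop_nhds_zero 3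
    have h2 := ((h1.comp hLtop).const_mul (512 * C))
    rw [mul_zero] at h2
    refine squeeze_zero (fun n => ?_) (fun n => ?_) h2
    · apply div_nonneg
      · exact circleAverage_nonneg_of_nonneg (fun z _ => posLog_nonneg)
      · exact Finset.sum_nonneg (fun i _ => gr_mRe_nonneg _ _)
    · have hL := hL1 n
      have hpos : 0 < exp (L n) / (512 * (L n) ^ 2) := by positivity
      have hC0 : 0 ≤ C * L n :=
        le_trans (circleAverage_nonneg_of_nonneg (fun z _ => posLog_nonneg)) (hup n i (l + 1))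
      calc mLog (iteratedDeriv (l + 1) (g i)) (exp (s n + 1 / (2 * L n))) /
            ∑ i, mRe (g i) (exp (s n + 1 / (2 * L n)))
          ≤ (C * L n) / (exp (L n) / (512 * (L n) ^ 2)) := by
            apply div_le_div₀ hC0 (hup n i (l + 1)) hpos (hlow n)
        _ = 512 * C * ((fun x : ℝ => x ^ 3 * exp (-x)) ∘ L) n := by
            simp only [Function.comp_apply]
            rw [exp_neg]
            field_simp

end Pool.Agent.R876.SV
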