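import Pool.Agent.R876.SV.Stm

/-!
Project SV (helper876), MP_6db049_an, piece HO: affine functions have finite hyper-order.
-/

namespace Pool.Agent.R876.SV

open Filter Topology Real

namespace HOaux

/-- the mean -/
noncomputable def m (α β : ℂ) (r : ℝ) : ℝ :=
  circleAverage (fun z : ℂ => Real.posLog ‖α * z + β‖) 0 r

theorem ci (α β : ℂ) (r : ℝ) : CircleIntegrable (fun z : ℂ => Real.posLog ‖α * z + β‖) 0 r := by
  have hc : Continuous (fun z : ℂ => Real.posLog ‖α * z + β‖) := by
    have h1 : Continuous Real.posLog := by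
      have : Real.posLog = fun x => Real.log (max 1 |x|) := by
        funext x
        rw [← Real.posLog_abs, Real.posLog_eq_log_max_one (abs_nonneg x)]
      rw [this]
      refine Continuous.log (by fun_prop) ?_
      intro x
      have := le_max_left 1 |x|
      linarith
    exact h1.comp (by fun_prop)
  exact hc.continuousOn.circleIntegrable'

theorem char_eq {f : ℂ → ℂ} {α β : ℂ} (hfa : ∀ z, ∀ᶠ x in 𝓝[≠] z, f x = α * x + β) {r : ℝ}
    (hr : r ≠ 0) : ValueDistribution.characteristic f ⊤ r = m α β r := by
  have hcod : f =ᶠ[codiscrete ℂ] (fun x => α * x + β) := by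
    refine mem_codiscrete.2 fun z => ?_
    rw [Filter.disjoint_principal_right, compl_compl]
    exact hfa z
  rw [ValueDistribution.characteristic_congr_codiscrete hcod hr]
  have h1 : ValueDistribution.logCounting (fun x : ℂ => α * x + β) ⊤ = 0 := by
    have h2 := ValueDistribution.logCounting_add_analyticOn (𝕜 := ℂ) (f := fun _ : ℂ => (0 : ℂ))
      (g := fun x : ℂ => α * x + β) (fun z => MeromorphicAt.const 0 z) (by
        have : AnalyticOnNhd ℂ (fun x : ℂ => α * x + β) Set.univ := fun z _ => by fun_prop
        exact this.analyticOn)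
    have h3 : ((fun _ : ℂ => (0 : ℂ)) + fun x : ℂ => α * x + β) = fun x : ℂ => α * x + β := by
      funext x
      simp
    rw [h3] at h2
    rw [h2]
    simp
  show ValueDistribution.proximity (fun x : ℂ => α * x + β) ⊤ r +
    ValueDistribution.logCounting (fun x : ℂ => α * x + β) ⊤ r = _
  rw [h1, ValueDistribution.proximity_top]
  simp [m]

theorem m_le (α β : ℂ) {r : ℝ} (hr : 0 ≤ r) : m α β r ≤ Real.posLog (‖α‖ * r + ‖β‖) := by
  refine circleAverage_mono_on_of_le_circle (ci α β r) ?_
  intro z hz
  have hz' : ‖z‖ = r := by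
    rw [mem_sphere_zero_iff_norm, abs_of_nonneg hr] at hz
    exact hz
  refine Real.posLog_le_posLog (norm_nonneg _) ?_
  calc ‖α * z + β‖ ≤ ‖α * z‖ + ‖β‖ := norm_add_le _ _
    _ = ‖α‖ * r + ‖β‖ := by rw [norm_mul, hz']

theorem le_m (α β : ℂ) {r : ℝ} (hr : 0 ≤ r) (h : 0 ≤ ‖α‖ * r - ‖β‖) :
    Real.posLog (‖α‖ * r - ‖β‖) ≤ m α β r := by
  have h1 : circleAverage (fun _ : ℂ => Real.posLog (‖α‖ * r - ‖β‖)) 0 r =
      Real.posLog (‖α‖ * r - ‖β‖) := circleAverage_const _ _ _
  rw [← h1]
  refine circleAverage_mono (circleIntegrable_const _ _ _) (ci α β r) ?_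
  intro z hz
  have hz' : ‖z‖ = r := by
    rw [mem_sphere_zero_iff_norm, abs_of_nonneg hr] at hz
    exact hz
  refine Real.posLog_le_posLog h ?_
  have h2 : ‖α * z‖ ≤ ‖α * z + β‖ + ‖β‖ := by
    have := norm_sub_le (α * z + β) β
    rwa [add_sub_cancel_right] at this
  rw [norm_mul, hz'] at h2
  linarith

theorem quot_le (α β : ℂ) : ∀ᶠ r : ℝ in atTop,
    Real.log (Real.log (m α β r)) / Real.log r ≤ 1 := by
  have hlogpos : ∀ᶠ r : ℝ in atTop, 0 < Real.log r :=
    Real.tendsto_log_atTop.eventually (eventually_gt_atTop 0)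
  by_cases hα : α = 0
  · subst hα
    have hc : ∀ r, m 0 β r = Real.posLog ‖β‖ := by
      intro r
      simp only [m, zero_mul, zero_add]
      exact circleAverage_const _ _ _
    filter_upwards [hlogpos, Real.tendsto_log_atTop.eventually
      (eventually_ge_atTop (Real.log (Real.log (Real.posLog ‖β‖))))] with r h1 h2
    rw [hc, div_le_one h1]
    exact h2
  · have hαp : 0 < ‖α‖ := norm_pos_iff.2 hα
    have hlow : ∀ᶠ r : ℝ in atTop, 1 ≤ m α β r := by
      have h1 : Tendsto (fun r : ℝ => ‖α‖ * r - ‖β‖) atTop atTop :=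
        tendsto_atTop_add_const_right _ _ (tendsto_id.const_mul_atTop hαp)
      have h2 : Tendsto (fun r : ℝ => Real.log (‖α‖ * r - ‖β‖)) atTop atTop :=
        Real.tendsto_log_atTop.comp h1
      filter_upwards [h2.eventually (eventually_ge_atTop 1), h1.eventually (eventually_ge_atTop 0),
        eventually_ge_atTop 0] with r h3 h4 h5
      refine le_trans (h3.trans ?_) (le_m α β h5 h4)
      rw [Real.posLog_apply]
      exact le_max_right _ _
    have hup : ∀ᶠ r : ℝ in atTop, m α β r ≤ r := by
      have h1 := Real.isLittleO_log_id_atTop.bound (show (0 : ℝ) < 1 / 2 by norm_num)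
      set C : ℝ := ‖α‖ + ‖β‖ + 1 with hC
      have hCp : 0 < C := by positivity
      filter_upwards [h1, eventually_ge_atTop 1, eventually_ge_atTop (2 * Real.log C)]
        with r h2 h3 h4
      refine (m_le α β (by linarith)).trans ?_
      have h5 : ‖α‖ * r + ‖β‖ ≤ C * r := by
        rw [hC]
        have := norm_nonneg β
        nlinarith
      have h6 : (1 : ℝ) ≤ C * r := by
        have h7 : 1 ≤ C := by
          rw [hC]
          have := norm_nonneg β
          linarith
        nlinarith
      refine (Real.posLog_le_posLog (by positivity) h5).trans ?_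
      rw [Real.posLog_eq_log (by rw [abs_of_pos (by linarith)]; exact h6),
        Real.log_mul (by positivity) (by linarith)]
      have h8 : Real.log r ≤ 1 / 2 * r := by
        have h9 := (le_abs_self (Real.log r)).trans h2
        simp only [id, Real.norm_eq_abs] at h9
        rwa [abs_of_nonneg (by linarith : (0 : ℝ) ≤ r)] at h9
      linarith
    filter_upwards [hlow, hup, hlogpos] with r h1 h2 h3
    rw [div_le_one h3]
    have h4 : 0 ≤ Real.log (m α β r) := Real.log_nonneg h1
    exact (Real.log_le_self h4).trans (Real.log_le_log (by linarith) h2)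

end HOaux

open HOaux in
/-- HO: affine functions have finite hyper-order. -/
theorem HO : S_HO := by
  intro f α β _ hfa
  have h1 : hyperOrder f ≤ ((1 : ℝ) : EReal) := by
    unfold hyperOrder
    refine Filter.limsup_le_of_le (by isBoundedDefault) ?_
    filter_upwards [quot_le α β, eventually_ne_atTop 0] with r hr hr0
    rw [char_eq hfa hr0]
    exact EReal.coe_le_coe_iff.2 hr
  exact (lt_of_le_of_lt h1 (EReal.coe_lt_top 1)).ne

end Pool.Agent.R876.SV
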