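import Pool.Agent.R876.SV.Stm

/-!
Project SV, MP_6db049_an: Jensen's inequality (piece JE).
-/

namespace Pool.Agent.R876.SV

open Filter Topology Real Metric

theorem JE : S_JE := by
  intro h hd _
  refine ⟨-Real.log ‖meromorphicTrailingCoeffAt h 0‖, fun r hr => ?_⟩
  have hr0 : r ≠ 0 := by linarith
  have hrabs : |r| = r := abs_of_nonneg (by linarith)
  have han : AnalyticOnNhd ℂ h (closedBall 0 |r|) := fun z _ => hd.analyticAt z
  have hmer : MeromorphicOn h (closedBall 0 |r|) := han.meromorphicOn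
  have hJ := MeromorphicOn.circleAverage_log_norm (c := 0) hr0 hmer
  have hdiv : ∀ u, 0 ≤ MeromorphicOn.divisor h (closedBall 0 |r|) u := fun u =>
    MeromorphicOn.AnalyticOnNhd.divisor_nonneg han u
  have h1 : 0 ≤ ∑ᶠ u, (MeromorphicOn.divisor h (closedBall 0 |r|) u : ℝ) *
      Real.log (r * ‖0 - u‖⁻¹) := by
    apply finsum_nonneg
    intro u
    by_cases hu : u ∈ closedBall (0 : ℂ) |r|
    · apply mul_nonneg (by exact_mod_cast hdiv u)
      by_cases hu0 : u = 0
      · simp [hu0]
      · apply Real.log_nonneg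
        rw [zero_sub, norm_neg]
        have h2 : 0 < ‖u‖ := norm_pos_iff.2 hu0
        have h3 : ‖u‖ ≤ r := by
          rw [mem_closedBall, dist_zero_right, hrabs] at hu
          exact hu
        rw [← div_eq_mul_inv, le_div_iff₀ h2]
        linarith
    · rw [Function.locallyFinsuppWithin.apply_eq_zero_of_notMem _ hu]
      simp
  have h2 : 0 ≤ (MeromorphicOn.divisor h (closedBall 0 |r|) 0 : ℝ) * Real.log r :=
    mul_nonneg (by exact_mod_cast hdiv 0) (Real.log_nonneg hr)
  have hsph : MeromorphicOn h (sphere 0 |r|) := fun z _ => (hd.analyticAt z).meromorphicAt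
  have i1 : CircleIntegrable (fun z => Real.posLog ‖h z‖) 0 r :=
    hsph.circleIntegrable_posLog_norm
  have i2 : CircleIntegrable (fun z => Real.log ‖h z‖) 0 r :=
    hsph.circleIntegrable_log_norm
  have h3 : (fun z => Real.posLog ‖(h z)⁻¹‖) = fun z => Real.posLog ‖h z‖ - Real.log ‖h z‖ := by
    funext z
    rw [norm_inv, ← Real.posLog_sub_posLog_inv]
    ring
  rw [h3, circleAverage_fun_sub i1 i2]
  unfold mLog
  linarith

end Pool.Agent.R876.SV
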