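import Pool.Agent.R876.SV.Stm

/-!
Project SV (helper876), MP_6db049_an: piece ME, no poles.
-/

set_option autoImplicit false

namespace Pool.Agent.R876.SV

open Filter Topology Real

theorem ME_deriv_nonneg {f : ℂ → ℂ} {w : ℂ} (hf : MeromorphicAt f w)
    (h : 0 ≤ meromorphicOrderAt f w) : 0 ≤ meromorphicOrderAt (deriv f) w := by
  have h1 : AnalyticAt ℂ (toMeromorphicNFAt f w) w :=
    hf.meromorphicOrderAt_nonneg_iff_analyticAt_toMeromorphicNFAt.1 h
  have h2 : deriv f =ᶠ[𝓝[≠] w] deriv (toMeromorphicNFAt f w) :=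
    hf.eq_nhdsNE_toMeromorphicNFAt.nhdsNE_deriv
  rw [meromorphicOrderAt_congr h2]
  exact h1.deriv.meromorphicOrderAt_nonneg

theorem ME_order_neg {f : ℂ → ℂ} {w : ℂ} (hf : MeromorphicAt f w) :
    meromorphicOrderAt (-f) w = meromorphicOrderAt f w := by
  classical
  have h1 : (-f) = (fun _ => (-1 : ℂ)) * f := by
    funext x
    simp
  rw [h1, meromorphicOrderAt_mul (by fun_prop) hf, meromorphicOrderAt_const]
  simp

theorem ME : S_ME := by
  intro f c hf hc hsh
  have hshift : ∀ z, meromorphicOrderAt (fun x => f (x + c)) z = meromorphicOrderAt f (z + c) :=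
    fun z => meromorphicOrderAt_fun_comp_add_const_eq_meromorphicOrderAt
  have hmshift : ∀ z, MeromorphicAt (fun x => f (x + c)) z := by
    intro z
    exact (hf (z + c)).comp_analyticAt (g := fun x => x + c) (by fun_prop)
  have hΔ : (fun x => f (x + c) - f x) = (fun x => f (x + c)) + (-f) := by
    funext x
    simp [sub_eq_add_neg]
  have hord1 : ∀ z, meromorphicOrderAt f (z + c) < meromorphicOrderAt f z →
      meromorphicOrderAt (fun x => f (x + c) - f x) z = meromorphicOrderAt f (z + c) := by
    intro z hz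
    rw [hΔ, meromorphicOrderAt_add_eq_left_of_lt (hf z).neg, hshift]
    rw [hshift, ME_order_neg (hf z)]
    exact hz
  have hord2 : ∀ z, meromorphicOrderAt f z ≤ meromorphicOrderAt f (z + c) →
      meromorphicOrderAt f z ≤ meromorphicOrderAt (fun x => f (x + c) - f x) z := by
    intro z hz
    have h1 := meromorphicOrderAt_add (hmshift z) (hf z).neg
    rw [← hΔ, hshift, ME_order_neg (hf z), min_eq_right hz] at h1
    exact h1
  -- step 1
  have step1 : ∀ (z : ℂ) (n : ℤ), n < 0 → meromorphicOrderAt f z = n →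
      meromorphicOrderAt f (z + c) = ((n - 1 : ℤ) : WithTop ℤ) := by
    intro z n hn hz
    have hd : meromorphicOrderAt (deriv f) z = ((n - 1 : ℤ) : WithTop ℤ) :=
      meromorphicOrderAt_deriv_eq_sub_one (Int.cast_ne_zero.2 hn.ne) hz
    have h1 := hsh z
    have hlt : ((n - 1 : ℤ) : WithTop ℤ) < 0 := by
      exact_mod_cast (by omega : n - 1 < 0)
    rw [hd, min_eq_right hlt.le] at h1
    have h2 : meromorphicOrderAt (fun x => f (x + c) - f x) z = ((n - 1 : ℤ) : WithTop ℤ) := by
      rcases le_total 0 (meromorphicOrderAt (fun x => f (x + c) - f x) z) with h | h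
      · rw [min_eq_left h] at h1
        rw [h1] at hlt
        exact absurd hlt (lt_irrefl _)
      · rw [min_eq_right h] at h1
        exact h1.symm
    rcases lt_or_ge (meromorphicOrderAt f (z + c)) (meromorphicOrderAt f z) with h | h
    · rw [← hord1 z h]
      exact h2
    · have h3 := hord2 z h
      rw [h2, hz] at h3
      have h4 : n ≤ n - 1 := by exact_mod_cast h3
      omega
  -- step 2
  have step2 : ∀ z : ℂ, meromorphicOrderAt f z < 0 → meromorphicOrderAt f (z - c) < 0 := by
    intro z hz
    by_contra hcon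
    rw [not_lt] at hcon
    have h1 := hsh (z - c)
    rw [min_eq_left (ME_deriv_nonneg (hf _) hcon)] at h1
    have h2 : meromorphicOrderAt f (z - c + c) < meromorphicOrderAt f (z - c) := by
      rw [sub_add_cancel]
      exact hz.trans_le hcon
    rw [hord1 _ h2, sub_add_cancel, min_eq_right hz.le] at h1
    rw [← h1] at hz
    exact lt_irrefl _ hz
  -- step 3
  have step3 : ∀ (m : ℕ) (z : ℂ), meromorphicOrderAt f z ≠ ((-((m : ℤ) + 1) : ℤ) : WithTop ℤ) := by
    intro m
    induction m with
    | zero =>
      intro z hz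
      have h0 : meromorphicOrderAt f z < 0 := by
        rw [hz]
        exact_mod_cast (by omega : -(((0 : ℕ) : ℤ) + 1) < 0)
      have h1 := step2 z h0
      obtain ⟨k, hk⟩ := WithTop.ne_top_iff_exists.1 h1.ne_top
      rw [← hk] at h1
      have hk0 : k < 0 := by exact_mod_cast h1
      have h2 := step1 (z - c) k hk0 hk.symm
      rw [sub_add_cancel, hz] at h2
      have h3 : -(((0 : ℕ) : ℤ) + 1) = k - 1 := by exact_mod_cast h2
      push_cast at h3
      omega
    | succ m ih =>
      intro z hz
      have h0 : meromorphicOrderAt f z < 0 := by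
        rw [hz]
        exact_mod_cast (by omega : -(((m + 1 : ℕ) : ℤ) + 1) < 0)
      have h1 := step2 z h0
      obtain ⟨k, hk⟩ := WithTop.ne_top_iff_exists.1 h1.ne_top
      rw [← hk] at h1
      have hk0 : k < 0 := by exact_mod_cast h1
      have h2 := step1 (z - c) k hk0 hk.symm
      rw [sub_add_cancel, hz] at h2
      have h3 : -(((m + 1 : ℕ) : ℤ) + 1) = k - 1 := by exact_mod_cast h2
      apply ih (z - c)
      rw [← hk]
      congr 1
      push_cast at h3
      omega
  have hnn : ∀ z, 0 ≤ meromorphicOrderAt f z := by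
    intro z
    by_contra hcon
    rw [not_le] at hcon
    obtain ⟨k, hk⟩ := WithTop.ne_top_iff_exists.1 hcon.ne_top
    have hk0 : k < 0 := by
      rw [← hk] at hcon
      exact_mod_cast hcon
    apply step3 (-k - 1).toNat z
    rw [← hk]
    congr 1
    omega
  have hfo : MeromorphicOn f Set.univ := fun z _ => hf z
  refine ⟨toMeromorphicNFOn f Set.univ, fun z => ?_, fun z => ?_⟩
  · have h1 : MeromorphicNFAt (toMeromorphicNFOn f Set.univ) z :=
      meromorphicNFOn_toMeromorphicNFOn f Set.univ (Set.mem_univ z)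
    have h2 : 0 ≤ meromorphicOrderAt (toMeromorphicNFOn f Set.univ) z := by
      rw [meromorphicOrderAt_toMeromorphicNFOn hfo (Set.mem_univ z)]
      exact hnn z
    exact (h1.meromorphicOrderAt_nonneg_iff_analyticAt.1 h2).differentiableAt
  · filter_upwards [hfo.toMeromorphicNFOn_eq_self_on_nhdsNE (Set.mem_univ z)] with x hx
    exact hx.symm

end Pool.Agent.R876.SV
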