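import Pool.Agent.R876.SV.SM

namespace Pool.Agent.R876.SV

open Filter Topology Real SMaux

theorem RE : S_RE := by
  intro g hg r
  have c1 : Continuous (fun z => Real.posLog ‖Complex.exp (g z)‖) :=
    cont_pl (Complex.continuous_exp.comp hg.continuous)
  have c2 : Continuous (fun z => (g z).re) := Complex.continuous_re.comp hg.continuous
  have e0 : (fun z => |(g z).re|) = fun z =>
      (Real.posLog ‖Complex.exp (g z)‖ + Real.posLog ‖Complex.exp (g z)‖) - (g z).re := by
    funext z
    rw [Complex.norm_exp, posLog_exp]
    rcases le_total 0 (g z).re with h | h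
    · rw [max_eq_right h, abs_of_nonneg h]
      ring
    · rw [max_eq_left h, abs_of_nonpos h]
      ring
  have e1 := circleAverage_fun_sub (c := 0) (R := r)
    (f₁ := fun z => Real.posLog ‖Complex.exp (g z)‖ + Real.posLog ‖Complex.exp (g z)‖)
    (f₂ := fun z => (g z).re) (ci (c1.add c1) r) (ci c2 r)
  have e2 := circleAverage_fun_add (c := 0) (R := r)
    (f₁ := fun z => Real.posLog ‖Complex.exp (g z)‖)
    (f₂ := fun z => Real.posLog ‖Complex.exp (g z)‖) (ci c1 r) (ci c1 r)
  have e3 : circleAverage (fun z => (g z).re) 0 r = (g 0).re := by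
    have h1 := Complex.reCLM.circleAverage_comp_comm (f := g) (c := 0) (R := r)
      hg.continuous.continuousOn.circleIntegrable'
    have h2 : circleAverage g 0 r = g 0 := hg.diffContOnCl.circleAverage
    rw [h2] at h1
    exact h1
  unfold mRe mLog
  rw [e0, e1, e2, e3]
  ring

end Pool.Agent.R876.SV
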