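import Pool.Agent.R876.SV.Stm

namespace Pool.Agent.R876.SV

open Filter Topology Real

namespace SMaux

theorem ci {f : ℂ → ℝ} (hf : Continuous f) (r : ℝ) : CircleIntegrable f 0 r :=
  hf.continuousOn.circleIntegrable'

theorem cont_pl {h : ℂ → ℂ} (hh : Continuous h) : Continuous (fun z => Real.posLog ‖h z‖) :=
  Real.continuous_posLog.comp hh.norm

theorem mLog_nonneg (h : ℂ → ℂ) (r : ℝ) : 0 ≤ mLog h r := by
  unfold mLog
  apply circleAverage_nonneg_of_nonneg
  intro x _
  exact Real.posLog_nonneg

theorem mRe_nonneg (h : ℂ → ℂ) (r : ℝ) : 0 ≤ mRe h r := by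
  unfold mRe
  apply circleAverage_nonneg_of_nonneg
  intro x _
  exact abs_nonneg _

theorem mLog_const (a : ℂ) (r : ℝ) : mLog (fun _ => a) r = Real.posLog ‖a‖ := by
  unfold mLog
  exact circleAverage_const _ _ _

theorem mLog_add_le {h k : ℂ → ℂ} (hh : Continuous h) (hk : Continuous k) (r : ℝ) :
    mLog (fun z => h z + k z) r ≤ Real.log 2 + mLog h r + mLog k r := by
  have h1 : mLog (fun z => h z + k z) r ≤
      circleAverage (fun z => (Real.log 2 + Real.posLog ‖h z‖) + Real.posLog ‖k z‖) 0 r := by
    unfold mLog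
    apply circleAverage_mono (ci (cont_pl (hh.add hk)) r)
    · exact ci ((continuous_const.add (cont_pl hh)).add (cont_pl hk)) r
    · intro z _
      have h2 : Real.posLog ‖h z + k z‖ ≤ Real.posLog (‖h z‖ + ‖k z‖) :=
        Real.posLog_le_posLog (norm_nonneg _) (norm_add_le _ _)
      exact h2.trans Real.posLog_add
  refine h1.trans (le_of_eq ?_)
  have c1 : Continuous (fun z => Real.log 2 + Real.posLog ‖h z‖) :=
    continuous_const.add (cont_pl hh)
  have e1 := circleAverage_fun_add (c := 0) (R := r) (f₁ := fun z => Real.log 2 + Real.posLog ‖h z‖)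
    (f₂ := fun z => Real.posLog ‖k z‖) (ci c1 r) (ci (cont_pl hk) r)
  have e2 := circleAverage_fun_add (c := 0) (R := r) (f₁ := fun _ : ℂ => Real.log 2)
    (f₂ := fun z => Real.posLog ‖h z‖) (ci continuous_const r) (ci (cont_pl hh) r)
  rw [e1, e2, circleAverage_const]
  rfl

theorem mLog_mul_le {h k : ℂ → ℂ} (hh : Continuous h) (hk : Continuous k) (r : ℝ) :
    mLog (fun z => h z * k z) r ≤ mLog h r + mLog k r := by
  have h1 : mLog (fun z => h z * k z) r ≤
      circleAverage (fun z => Real.posLog ‖h z‖ + Real.posLog ‖k z‖) 0 r := by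
    unfold mLog
    apply circleAverage_mono (ci (cont_pl (hh.mul hk)) r)
    · exact ci ((cont_pl hh).add (cont_pl hk)) r
    · intro z _
      change Real.posLog ‖h z * k z‖ ≤ _
      rw [norm_mul]
      exact Real.posLog_mul
  refine h1.trans (le_of_eq ?_)
  rw [circleAverage_fun_add (ci (cont_pl hh) r) (ci (cont_pl hk) r)]
  rfl

theorem posLog_exp (x : ℝ) : Real.posLog (Real.exp x) = max 0 x := by
  rw [Real.posLog_apply, Real.log_exp]

theorem mLog_exp_le {g : ℂ → ℂ} (hg : Continuous g) (r : ℝ) :
    mLog (fun z => Complex.exp (g z)) r ≤ mRe g r := by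
  unfold mLog mRe
  apply circleAverage_mono (ci (cont_pl (Complex.continuous_exp.comp hg)) r)
  · exact ci ((Complex.continuous_re.comp hg).abs) r
  · intro z _
    change Real.posLog ‖Complex.exp (g z)‖ ≤ _
    rw [Complex.norm_exp, posLog_exp]
    exact max_le (abs_nonneg _) (le_abs_self _)

theorem tend_of_le {U : Filter ℕ} {T F G H : ℕ → ℝ} {C : ℝ} (hT : ∀ n, 0 < T n)
    (hTt : Tendsto T U atTop) (h0 : ∀ n, 0 ≤ F n) (hle : ∀ n, F n ≤ C + G n + H n)
    (hG : Tendsto (fun n => G n / T n) U (𝓝 0)) (hH : Tendsto (fun n => H n / T n) U (𝓝 0)) :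
    Tendsto (fun n => F n / T n) U (𝓝 0) := by
  have hC : Tendsto (fun n => C / T n) U (𝓝 0) := hTt.const_div_atTop C
  have hsum := (hC.add hG).add hH
  rw [add_zero, add_zero] at hsum
  refine squeeze_zero (fun n => div_nonneg (h0 n) (hT n).le) (fun n => ?_) hsum
  rw [← add_div, ← add_div]
  exact div_le_div_of_nonneg_right (hle n) (hT n).le

theorem entire_deriv {h : ℂ → ℂ} (hh : Differentiable ℂ h) : Differentiable ℂ (deriv h) := by
  have h1 : ContDiff ℂ 2 h := hh.contDiff
  exact ((contDiff_succ_iff_deriv (n := 1)).1 h1).2.2.differentiable one_ne_zero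

theorem cont_iter {h : ℂ → ℂ} (hh : Differentiable ℂ h) (l : ℕ) :
    Continuous (iteratedDeriv l h) := by
  have h1 : ContDiff ℂ l h := hh.contDiff
  exact h1.continuous_iteratedDeriv l le_rfl

theorem iter_add {h k : ℂ → ℂ} (hh : Differentiable ℂ h) (hk : Differentiable ℂ k) (l : ℕ) :
    iteratedDeriv l (fun z => h z + k z) = fun z => iteratedDeriv l h z + iteratedDeriv l k z := by
  funext z
  have h1 : ContDiffAt ℂ l h z := hh.contDiff.contDiffAt
  have h2 : ContDiffAt ℂ l k z := hk.contDiff.contDiffAt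
  exact iteratedDeriv_fun_add h1 h2

end SMaux

open SMaux

theorem SM : S_SM := by
  intro U R T hS
  -- the sum rule at level `l`
  have hadd : ∀ (l : ℕ) (h k : ℂ → ℂ), Differentiable ℂ h → Differentiable ℂ k →
      Tendsto (fun n => mLog (iteratedDeriv l h) (R n) / T n) U (𝓝 0) →
      Tendsto (fun n => mLog (iteratedDeriv l k) (R n) / T n) U (𝓝 0) →
      Tendsto (fun n => mLog (iteratedDeriv l (fun z => h z + k z)) (R n) / T n) U (𝓝 0) := by
    intro l h k hh hk h1 h2
    rw [iter_add hh hk l]
    exact tend_of_le hS.pos hS.top (fun n => mLog_nonneg _ _)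
      (fun n => mLog_add_le (cont_iter hh l) (cont_iter hk l) (R n)) h1 h2
  have hD : ∀ h, Sm U R T h → Sm U R T (deriv h) := by
    intro h hh
    refine ⟨entire_deriv hh.1, ?_⟩
    intro l
    have := hh.2 (l + 1)
    rw [iteratedDeriv_succ'] at this
    exact this
  have hmul0 : ∀ (l : ℕ) (h k : ℂ → ℂ), Sm U R T h → Sm U R T k →
      Tendsto (fun n => mLog (iteratedDeriv l (fun z => h z * k z)) (R n) / T n) U (𝓝 0) := by
    intro l
    induction l with
    | zero =>
      intro h k hh hk
      have h1 := hh.2 0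
      have h2 := hk.2 0
      rw [iteratedDeriv_zero] at h1 h2 ⊢
      refine tend_of_le (C := 0) hS.pos hS.top (fun n => mLog_nonneg _ _) (fun n => ?_) h1 h2
      rw [zero_add]
      exact mLog_mul_le hh.1.continuous hk.1.continuous (R n)
    | succ l ih =>
      intro h k hh hk
      have e : deriv (fun z => h z * k z) = fun z => deriv h z * k z + h z * deriv k z := by
        funext z
        exact deriv_fun_mul (hh.1 z) (hk.1 z)
      rw [iteratedDeriv_succ', e]
      exact hadd l (fun z => deriv h z * k z) (fun z => h z * deriv k z)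
        ((entire_deriv hh.1).mul hk.1) (hh.1.mul (entire_deriv hk.1))
        (ih _ _ (hD h hh) hk) (ih _ _ hh (hD k hk))
  have hA : ∀ h k, Sm U R T h → Sm U R T k → Sm U R T (fun z => h z + k z) := by
    intro h k hh hk
    exact ⟨hh.1.add hk.1, fun l => hadd l h k hh.1 hk.1 (hh.2 l) (hk.2 l)⟩
  have hM : ∀ h k, Sm U R T h → Sm U R T k → Sm U R T (fun z => h z * k z) := by
    intro h k hh hk
    exact ⟨hh.1.mul hk.1, fun l => hmul0 l h k hh hk⟩
  have hK : ∀ a : ℂ, Sm U R T (fun _ => a) := by
    intro a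
    refine ⟨differentiable_const a, ?_⟩
    intro l
    have e : iteratedDeriv l (fun _ : ℂ => a) = fun _ => if l = 0 then a else 0 := by
      funext z
      rw [iteratedDeriv_const]
    rw [e]
    simp_rw [mLog_const]
    exact hS.top.const_div_atTop _
  refine ⟨hK, hA, hM, hD, ?_⟩
  intro g hg hg' hneg
  have hexp : Differentiable ℂ (fun z => Complex.exp (g z)) := hg.cexp
  have hE : ∀ (l : ℕ) (k : ℂ → ℂ), Sm U R T k →
      Tendsto (fun n => mLog (iteratedDeriv l (fun z => Complex.exp (g z) * k z)) (R n) / T n)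
        U (𝓝 0) := by
    intro l
    induction l with
    | zero =>
      intro k hk
      have h2 := hk.2 0
      rw [iteratedDeriv_zero] at h2 ⊢
      refine tend_of_le (C := 0) hS.pos hS.top (fun n => mLog_nonneg _ _) (fun n => ?_) hneg h2
      rw [zero_add]
      refine (mLog_mul_le hexp.continuous hk.1.continuous (R n)).trans ?_
      have := mLog_exp_le hg.continuous (R n)
      linarith
    | succ l ih =>
      intro k hk
      have e : deriv (fun z => Complex.exp (g z) * k z) =
          fun z => Complex.exp (g z) * (deriv g z * k z + deriv k z) := by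
        funext z
        rw [deriv_fun_mul (hexp z) (hk.1 z)]
        have h3 : deriv (fun z => Complex.exp (g z)) z = Complex.exp (g z) * deriv g z :=
          ((hg z).hasDerivAt.cexp).deriv
        rw [h3]
        ring
      rw [iteratedDeriv_succ', e]
      exact ih _ (hA _ _ (hM _ _ hg' hk) (hD k hk))
  refine ⟨hexp, ?_⟩
  intro l
  have := hE l (fun _ => 1) (hK 1)
  simpa using this

end Pool.Agent.R876.SV
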