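import Pool.Agent.R876.SV.Defs

/-!
Project SV (helper876), MP_6db049_an: exact statements of the pieces.  A piece `X` is proved in
`Pool/Agent/R876/SV/X.lean` as `theorem Pool.Agent.R876.SV.X : S_X` (imports Stm and, if wanted,
the other pieces it uses).
-/

namespace Pool.Agent.R876.SV

open Filter Topology Real

/-- GR (good radii). -/
def S_GR : Prop :=
  ∀ g : Fin 4 → ℂ → ℂ, (∀ i, Differentiable ℂ (g i)) → (∃ i, ∃ z, g i z ≠ g i 0) →
    ∃ R T : ℕ → ℝ, (∀ n, 1 ≤ R n) ∧ (∀ n, 0 < T n) ∧ Tendsto T atTop atTop ∧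
      (∀ n, T n = ∑ i, mRe (g i) (R n)) ∧
      ∀ i, ∀ l : ℕ, Tendsto (fun n => mLog (iteratedDeriv (l + 1) (g i)) (R n) / T n)
        atTop (𝓝 0)

/-- SM (the small functions form a differential ring containing the small exponentials). -/
def S_SM : Prop :=
  ∀ (U : Filter ℕ) (R T : ℕ → ℝ), Scale U R T →
    (∀ a : ℂ, Sm U R T (fun _ => a)) ∧
    (∀ h k, Sm U R T h → Sm U R T k → Sm U R T (fun z => h z + k z)) ∧
    (∀ h k, Sm U R T h → Sm U R T k → Sm U R T (fun z => h z * k z)) ∧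
    (∀ h, Sm U R T h → Sm U R T (deriv h)) ∧
    (∀ g, Differentiable ℂ g → Sm U R T (deriv g) → Neg U R T g →
      Sm U R T (fun z => Complex.exp (g z)))

/-- JE (Jensen's inequality). -/
def S_JE : Prop :=
  ∀ h : ℂ → ℂ, Differentiable ℂ h → (∃ z, h z ≠ 0) →
    ∃ C : ℝ, ∀ r : ℝ, 1 ≤ r →
      circleAverage (fun z => Real.posLog ‖(h z)⁻¹‖) 0 r ≤ mLog h r + C

/-- RE (mean of `|Re g|` and proximity function of `exp g`). -/
def S_RE : Prop :=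
  ∀ g : ℂ → ℂ, Differentiable ℂ g → ∀ r : ℝ,
    mRe g r = 2 * mLog (fun z => Complex.exp (g z)) r - (g 0).re

/-- BW (Borel's theorem with small coefficients). -/
def S_BW : Prop :=
  ∀ (U : Filter ℕ) (R T : ℕ → ℝ), Scale U R T →
    ∀ (s : Finset ℕ) (c g : ℕ → ℂ → ℂ), s.Nonempty →
      (∀ i ∈ s, Sm U R T (c i)) → (∀ i ∈ s, ∃ z, c i z ≠ 0) →
      (∀ i ∈ s, Differentiable ℂ (g i)) → (∀ i ∈ s, Sm U R T (deriv (g i))) →
      (∀ z, ∑ i ∈ s, c i z * Complex.exp (g i z) = 0) →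
      ∃ i ∈ s, ∃ j ∈ s, i ≠ j ∧ Neg U R T (fun z => g i z - g j z)

/-- DP (deformation principle). -/
def S_DP : Prop :=
  ∀ (U : Filter ℕ) (R T : ℕ → ℝ), Scale U R T →
    ∀ (s : Finset ℕ) (c g : ℕ → ℂ → ℂ) (μ : ℕ → ℝ),
      (∀ i ∈ s, Sm U R T (c i)) →
      (∀ i ∈ s, Differentiable ℂ (g i)) → (∀ i ∈ s, Sm U R T (deriv (g i))) →
      (∀ i ∈ s, ∀ j ∈ s, Neg U R T (fun z => g i z - g j z) → μ i = μ j) →
      (∀ z, ∑ i ∈ s, c i z * Complex.exp (g i z) = 0) →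
      ∀ t z : ℂ, ∑ i ∈ s, c i z * Complex.exp (t * (μ i : ℂ)) * Complex.exp (g i z) = 0

/-- FN (functionals). -/
def S_FN : Prop :=
  ∀ (U : Ultrafilter ℕ) (R T : ℕ → ℝ), Scale (U : Filter ℕ) R T →
    ∀ g : Fin 4 → ℂ → ℂ, (∀ i, Differentiable ℂ (g i)) →
      (∀ n, T n = ∑ i, mRe (g i) (R n)) →
      ∀ i j, ¬ Neg (U : Filter ℕ) R T (g i) → ¬ Neg (U : Filter ℕ) R T (g j) →
        ∃ μ : Fin 4 → ℝ, μ i ≠ 0 ∧ μ j ≠ 0 ∧
          ∀ k : Fin 4 → ℤ, Neg (U : Filter ℕ) R T (fun z => ∑ m, (k m : ℂ) * g m z) →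
            ∑ m, (k m : ℝ) * μ m = 0

/-- UN (units): entire functions with the same zeros differ by an exponential. -/
def S_UN : Prop :=
  ∀ F G : ℂ → ℂ, Differentiable ℂ F → Differentiable ℂ G → (∃ z, F z ≠ 0) → (∃ z, G z ≠ 0) →
    (∀ z, meromorphicOrderAt F z = meromorphicOrderAt G z) →
    ∃ A : ℂ → ℂ, Differentiable ℂ A ∧ ∀ z, F z = Complex.exp (A z) * G z

/-- ME (no poles): if `f'` and `Δ_c f` share `∞` CM then `f` is entire
(up to a discrete set of wrong values). -/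
def S_ME : Prop :=
  ∀ (f : ℂ → ℂ) (c : ℂ), (∀ z, MeromorphicAt f z) → c ≠ 0 →
    SharePoles (deriv f) (fun x => f (x + c) - f x) →
    ∃ g : ℂ → ℂ, Differentiable ℂ g ∧ ∀ z, ∀ᶠ x in 𝓝[≠] z, f x = g x

/-- HO: affine functions have finite hyper-order. -/
def S_HO : Prop :=
  ∀ (f : ℂ → ℂ) (α β : ℂ), (∀ z, MeromorphicAt f z) →
    (∀ z, ∀ᶠ x in 𝓝[≠] z, f x = α * x + β) → hyperOrder f ≠ ⊤

/-- CORE: the entire case after taking logarithms. -/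
def S_CORE : Prop :=
  ∀ (f A B : ℂ → ℂ) (c a b : ℂ), Differentiable ℂ f → Differentiable ℂ A →
    Differentiable ℂ B → c ≠ 0 → a ≠ b → (∃ z, deriv f z ≠ deriv f 0) →
    (∀ z, deriv f z - a = Complex.exp (A z) * (f (z + c) - f z - a)) →
    (∀ z, deriv f z - b = Complex.exp (B z) * (f (z + c) - f z - b)) →
    ∀ z, deriv f z = f (z + c) - f z

end Pool.Agent.R876.SV
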