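import Pool.Agent.R876.SV.Stm

/-!
Project SV, MP_6db049_an: entire functions with the same zeros differ by an exponential (piece UN).
-/

namespace Pool.Agent.R876.SV

open Filter Topology

/-- an entire function without zeros is an exponential -/
theorem exists_entire_log {q : ℂ → ℂ} (hq : Differentiable ℂ q) (h0 : ∀ z, q z ≠ 0) :
    ∃ A : ℂ → ℂ, Differentiable ℂ A ∧ ∀ z, q z = Complex.exp (A z) := by
  have hq' : Differentiable ℂ (deriv q) := fun z => (hq.analyticAt z).deriv.differentiableAt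
  have hd : Differentiable ℂ (fun z => deriv q z / q z) := fun z => (hq' z).fun_div (hq z) (h0 z)
  obtain ⟨A, hA0, hA⟩ := hd.isExactOn_univ.with_val_at 0 (Complex.log (q 0))
  have hA' : ∀ z, HasDerivAt A (deriv q z / q z) z := fun z => hA z (Set.mem_univ z)
  refine ⟨A, fun z => (hA' z).differentiableAt, ?_⟩
  have hder : ∀ z, HasDerivAt (fun z => q z * Complex.exp (-A z)) 0 z := by
    intro z
    have h1 := (hq z).hasDerivAt.mul ((hA' z).neg.cexp)
    have h2 : deriv q z * Complex.exp (-A z) + q z * (Complex.exp (-A z) * -(deriv q z / q z)) =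
        0 := by
      have h3 := h0 z
      field_simp
      ring
    rw [← h2]
    exact h1
  have hconst : ∀ z, q z * Complex.exp (-A z) = q 0 * Complex.exp (-A 0) := fun z =>
    is_const_of_deriv_eq_zero (fun z => (hder z).differentiableAt) (fun z => (hder z).deriv) z 0
  intro z
  have h2 := hconst z
  rw [hA0, Complex.exp_neg, Complex.exp_neg, Complex.exp_log (h0 0), mul_inv_cancel₀ (h0 0)] at h2
  exact eq_of_mul_inv_eq_one h2

theorem order_ne_top {F : ℂ → ℂ} (hF : Differentiable ℂ F) (hF0 : ∃ z, F z ≠ 0) (z : ℂ) :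
    meromorphicOrderAt F z ≠ ⊤ := by
  intro htop
  rw [meromorphicOrderAt_eq_top_iff] at htop
  obtain ⟨w, hw⟩ := hF0
  apply hw
  have h1 : AnalyticOnNhd ℂ F Set.univ := fun z _ => hF.analyticAt z
  have h2 := h1.eqOn_zero_of_preconnected_of_frequently_eq_zero isPreconnected_univ
    (Set.mem_univ z) htop.frequently
  exact h2 (Set.mem_univ w)

theorem UN : S_UN := by
  intro F G hF hG hF0 hG0 hord
  have hFm : MeromorphicOn F Set.univ := fun z _ => (hF.analyticAt z).meromorphicAt
  have hGm : MeromorphicOn G Set.univ := fun z _ => (hG.analyticAt z).meromorphicAt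
  have hqm : MeromorphicOn (F * G⁻¹) Set.univ := fun z hz => (hFm z hz).mul (hGm z hz).inv
  set q : ℂ → ℂ := toMeromorphicNFOn (F * G⁻¹) Set.univ with hq
  have hqNF : MeromorphicNFOn q Set.univ := meromorphicNFOn_toMeromorphicNFOn _ _
  have hqord : ∀ z, meromorphicOrderAt q z = 0 := by
    intro z
    rw [hq, meromorphicOrderAt_toMeromorphicNFOn hqm (Set.mem_univ z),
      meromorphicOrderAt_mul (hFm z (Set.mem_univ z)) (hGm z (Set.mem_univ z)).inv,
      meromorphicOrderAt_inv, hord z]
    have h1 := order_ne_top hG hG0 z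
    obtain ⟨n, hn⟩ := WithTop.ne_top_iff_exists.1 h1
    rw [← hn]
    norm_cast
    simp
  have hqan : ∀ z, AnalyticAt ℂ q z := fun z =>
    (hqNF (Set.mem_univ z)).meromorphicOrderAt_nonneg_iff_analyticAt.1 (hqord z).ge
  have hq0 : ∀ z, q z ≠ 0 := fun z =>
    (hqNF (Set.mem_univ z)).meromorphicOrderAt_eq_zero_iff.1 (hqord z)
  obtain ⟨A, hA, hAq⟩ := exists_entire_log (fun z => (hqan z).differentiableAt) hq0
  refine ⟨A, hA, ?_⟩
  have hqG : AnalyticOnNhd ℂ (fun z => q z * G z) Set.univ := fun z _ =>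
    (hqan z).mul (hG.analyticAt z)
  have hFa : AnalyticOnNhd ℂ F Set.univ := fun z _ => hF.analyticAt z
  have hev : ∀ᶠ z in 𝓝[≠] (0 : ℂ), F z = q z * G z := by
    have h1 := hqm.toMeromorphicNFOn_eq_self_on_nhdsNE (Set.mem_univ (0 : ℂ))
    have h2 : ∀ᶠ z in 𝓝[≠] (0 : ℂ), G z ≠ 0 := by
      have h3 := order_ne_top hG hG0 0
      rwa [meromorphicOrderAt_ne_top_iff_eventually_ne_zero (hGm 0 (Set.mem_univ 0))] at h3
    filter_upwards [h1, h2] with z hz1 hz2
    have hz3 : q z = F z * (G z)⁻¹ := hz1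
    rw [hz3, mul_assoc, inv_mul_cancel₀ hz2, mul_one]
  have heq : F = fun z => q z * G z := hFa.eq_of_frequently_eq hqG hev.frequently
  intro z
  rw [← hAq]
  exact congrFun heq z

end Pool.Agent.R876.SV
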